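import Pool.Agent.helper63.NU.Defs2
import Pool.Agent.helper41.NU.A1
import Pool.Agent.helper41.NU.A2
import Pool.Agent.helper70.NU.A7
import Pool.Agent.helper69.NU.B1

set_option autoImplicit false
set_option linter.all false

/-! Module B4: invariance under changes of charts of Hessians, dbar, the energy density and the
Bochner density. -/

open MeasureTheory Filter Topology Set
open scoped ContDiff Manifold Matrix ENNReal ComplexOrder

noncomputable section

namespace Pool.Agent.helper63.NU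

variable {n : ℕ} {M : Type*} [TopologicalSpace M] [ChartedSpace (E n) M]
  [IsManifold 𝓘(ℂ, E n) ω M]

namespace B4aux

theorem mem_V {e e' : Ch n M} {x : M} (hx : x ∈ e.source) (hx' : x ∈ e'.source) :
    e x ∈ e.target ∩ e.symm ⁻¹' e'.source := by
  refine ⟨e.map_source hx, ?_⟩
  simp only [mem_preimage]
  rw [e.left_inv hx]; exact hx'

theorem V_nhds {e e' : Ch n M} {x : M} (hx : x ∈ e.source) (hx' : x ∈ e'.source) :
    e.target ∩ e.symm ⁻¹' e'.source ∈ 𝓝 (e x) :=
  (isOpen_trans e e').mem_nhds (mem_V hx hx')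

/-- points of V are of the form `e x` -/
theorem of_V {e e' : Ch n M} {z : E n} (hz : z ∈ e.target ∩ e.symm ⁻¹' e'.source) :
    e.symm z ∈ e.source ∧ e.symm z ∈ e'.source ∧ e (e.symm z) = z :=
  ⟨e.map_target hz.1, hz.2, e.right_inv hz.1⟩

theorem contDiffAt_of {F : Type*} [NormedAddCommGroup F] [NormedSpace ℝ F]
    {U : Set (E n)} {f : E n → F} (h : ContDiffOn ℝ ∞ f U) (hU : IsOpen U)
    {y : E n} (hy : y ∈ U) : ContDiffAt ℝ ∞ f y := h.contDiffAt (hU.mem_nhds hy)

theorem diffAt_of {F : Type*} [NormedAddCommGroup F] [NormedSpace ℝ F]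
    {U : Set (E n)} {f : E n → F} (h : ContDiffOn ℝ ∞ f U) (hU : IsOpen U)
    {y : E n} (hy : y ∈ U) : DifferentiableAt ℝ f y :=
  (contDiffAt_of h hU hy).differentiableAt (by simp)

/-- the logarithm of the square norm of the Jacobian is smooth -/
theorem contDiffAt_logjac {e e' : Ch n M} (he : e ∈ atlas (E n) M) (he' : e' ∈ atlas (E n) M)
    {z : E n} (hz : z ∈ e.target ∩ e.symm ⁻¹' e'.source) :
    ContDiffAt ℝ ∞ (fun z => Real.log (‖jac e e' z‖ ^ 2)) z := by
  have h1 : AnalyticAt ℂ (jac e e') z := jac_analytic he he' z hz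
  have h2 : ContDiffAt ℝ ∞ (jac e e') z := (h1.contDiffAt (n := ∞)).restrict_scalars ℝ
  have h3 : ContDiffAt ℝ ∞ (fun z => ‖jac e e' z‖ ^ 2) z := h2.norm_sq ℝ
  obtain ⟨a, b, c⟩ := of_V hz
  have h4 : jac e e' z ≠ 0 := by
    have := jac_ne_zero he he' a b
    rwa [c] at this
  exact h3.log (by positivity)

theorem le2 : (2 : WithTop ℕ∞) ≤ (((⊤ : ℕ∞) : WithTop ℕ∞)) := by
  have h : (((2 : ℕ∞)) : WithTop ℕ∞) ≤ ((⊤ : ℕ∞) : WithTop ℕ∞) := WithTop.coe_le_coe.2 le_top
  exact h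

theorem psi_eq_near {k : ℕ} {ψ : Fam n M ℝ} (hψ : IsWeight k ψ) {e e' : Ch n M}
    (he : e ∈ atlas (E n) M) (he' : e' ∈ atlas (E n) M) {z : E n}
    (hz : z ∈ e.target ∩ e.symm ⁻¹' e'.source) :
    ψ e z = ψ e' (e' (e.symm z)) - k * Real.log (‖jac e e' z‖ ^ 2) := by
  obtain ⟨a, b, c⟩ := of_V hz
  have := hψ.trans e he e' he' (e.symm z) ⟨a, b⟩
  rwa [c] at this

theorem sec_eq_near {k : ℕ} {s : Fam n M ℂ} (hs : IsSec k s) {e e' : Ch n M}
    (he : e ∈ atlas (E n) M) (he' : e' ∈ atlas (E n) M) {z : E n}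
    (hz : z ∈ e.target ∩ e.symm ⁻¹' e'.source) :
    s e' (e' (e.symm z)) = jac e e' z ^ k * s e z := by
  obtain ⟨a, b, c⟩ := of_V hz
  have := hs.trans e he e' he' (e.symm z) ⟨a, b⟩
  rwa [c] at this

/-- the matrix of the differential of the change of charts -/
def D (e e' : Ch n M) (z : E n) : Matrix (Fin n) (Fin n) ℂ :=
  Matrix.of fun i j => fderiv ℂ (fun z => e' (e.symm z)) z (Pi.single j 1) i

theorem det_D (e e' : Ch n M) (z : E n) : (D e e' z).det = jac e e' z :=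
  (jac_eq_det e e' z).symm

theorem lev_near {k : ℕ} {ψ : Fam n M ℝ} (hψ : IsWeight k ψ) {e e' : Ch n M}
    (he : e ∈ atlas (E n) M) (he' : e' ∈ atlas (E n) M) {z : E n}
    (hz : z ∈ e.target ∩ e.symm ⁻¹' e'.source) (j l : Fin n) :
    lev (ψ e) z j l = ∑ i, ∑ m, D e e' z i j * lev (ψ e') (e' (e.symm z)) i m *
      (starRingEnd ℂ) (D e e' z m l) := by
  have hnear : ψ e =ᶠ[𝓝 z] fun z => ψ e' (e' (e.symm z)) - k * Real.log (‖jac e e' z‖ ^ 2) := by
    filter_upwards [(isOpen_trans e e').mem_nhds hz] with w hw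
    exact psi_eq_near hψ he he' hw
  have hτ : AnalyticAt ℂ (fun y => e' (e.symm y)) z := trans_analytic he he' z hz
  have hτr : ContDiffAt ℝ ∞ (fun y => e' (e.symm y)) z :=
    (hτ.contDiffAt (n := ∞)).restrict_scalars ℝ
  obtain ⟨a, b, c⟩ := of_V hz
  have hp : ContDiffAt ℝ ∞ (ψ e') (e' (e.symm z)) :=
    contDiffAt_of (hψ.smooth e' he') e'.open_target (e'.map_source b)
  have h1 : ContDiffAt ℝ ∞ (fun z => ψ e' (e' (e.symm z))) z := ContDiffAt.comp z hp hτr
  have h2 := contDiffAt_logjac he he' hz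
  have h3 : ContDiffAt ℝ ∞ (fun z => (k : ℝ) * Real.log (‖jac e e' z‖ ^ 2)) z :=
    contDiffAt_const.mul h2
  rw [lev_congr hnear, lev_sub (h1.of_le le2) (h3.of_le le2), lev_const_mul _ (h2.of_le le2),
    lev_log_normSq (jac_analytic he he' z hz)]
  · rw [smul_zero, sub_zero]
    rw [lev_comp (τ := fun y => e' (e.symm y)) hτ (hp.of_le le2)]
    rfl
  · have := jac_ne_zero he he' a b
    rwa [c] at this

theorem dbv_near {k : ℕ} {s : Fam n M ℂ} (hs : IsSec k s) {e e' : Ch n M}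
    (he : e ∈ atlas (E n) M) (he' : e' ∈ atlas (E n) M) {z : E n}
    (hz : z ∈ e.target ∩ e.symm ⁻¹' e'.source) (j : Fin n) :
    jac e e' z ^ k * dbv (s e) z j = ∑ l, dbv (s e') (e' (e.symm z)) l *
      (starRingEnd ℂ) (D e e' z l j) := by
  have hnear : (fun z => s e' (e' (e.symm z))) =ᶠ[𝓝 z] fun z => jac e e' z ^ k * s e z := by
    filter_upwards [(isOpen_trans e e').mem_nhds hz] with w hw
    exact sec_eq_near hs he he' hw
  have hτ : AnalyticAt ℂ (fun y => e' (e.symm y)) z := trans_analytic he he' z hz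
  obtain ⟨a, b, c⟩ := of_V hz
  have hp : DifferentiableAt ℝ (s e') (e' (e.symm z)) :=
    diffAt_of (hs.smooth e' he') e'.open_target (e'.map_source b)
  have hp2 : DifferentiableAt ℝ (s e) z :=
    diffAt_of (hs.smooth e he) e.open_target hz.1
  have hJ : DifferentiableAt ℂ (fun z => jac e e' z ^ k) z :=
    ((jac_analytic he he' z hz).differentiableAt).pow k
  have h1 := db_comp (τ := fun y => e' (e.symm y)) hτ.differentiableAt hp j
  have h2 := db_congr hnear j
  rw [h1, db_mul (hJ.restrictScalars ℝ) hp2 j, db_hol hJ j, zero_mul, zero_add] at h2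
  rw [dbv, ← h2]
  rfl

theorem jac_ne {e e' : Ch n M} (he : e ∈ atlas (E n) M) (he' : e' ∈ atlas (E n) M) {z : E n}
    (hz : z ∈ e.target ∩ e.symm ⁻¹' e'.source) : jac e e' z ≠ 0 := by
  obtain ⟨a, b, c⟩ := of_V hz
  have := jac_ne_zero he he' a b
  rwa [c] at this

theorem exp_near {k : ℕ} {ψ : Fam n M ℝ} (hψ : IsWeight k ψ) {e e' : Ch n M}
    (he : e ∈ atlas (E n) M) (he' : e' ∈ atlas (E n) M) {z : E n}
    (hz : z ∈ e.target ∩ e.symm ⁻¹' e'.source) :
    Real.exp (-ψ e z) = ‖jac e e' z‖ ^ (2 * k) * Real.exp (-ψ e' (e' (e.symm z))) := by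
  have hJ : 0 < ‖jac e e' z‖ := norm_pos_iff.2 (jac_ne he he' hz)
  have h1 : Real.exp ((k : ℝ) * Real.log (‖jac e e' z‖ ^ 2)) = (‖jac e e' z‖ ^ 2) ^ k := by
    rw [← Real.log_pow, Real.exp_log (by positivity)]
  rw [psi_eq_near hψ he he' hz, neg_sub, sub_eq_add_neg, Real.exp_add, pow_mul, h1]

theorem norm_pow_eq (J : ℂ) (k : ℕ) :
    ((‖J‖ ^ (2 * k) : ℝ) : ℂ) = J ^ k * (starRingEnd ℂ) (J ^ k) := by
  rw [Complex.mul_conj, Complex.normSq_eq_norm_sq, norm_pow, ← pow_mul, mul_comm k 2]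

/-- a general invariance argument: a sesquilinear expression of weight `k` times `e^{-ψ}` is a
density. -/
theorem den_of {k : ℕ} {ψ : Fam n M ℝ} (hψ : IsWeight (k + 1) ψ) {q : Fam n M ℂ}
    (hq : ∀ e ∈ atlas (E n) M, ∀ e' ∈ atlas (E n) M, ∀ z ∈ e.target ∩ e.symm ⁻¹' e'.source,
      ((‖jac e e' z‖ ^ (2 * k) : ℝ) : ℂ) * q e z = q e' (e' (e.symm z))) :
    IsDen (fun e y => q e y * (Real.exp (-ψ e y) : ℂ) : Fam n M ℂ) := by
  intro e he e' he' x hx
  have hz := mem_V hx.1 hx.2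
  have h1 := hq e he e' he' (e x) hz
  have h2 := exp_near hψ he he' hz
  rw [e.left_inv hx.1] at h1 h2
  show q e (e x) * (Real.exp (-ψ e (e x)) : ℂ) =
    ((‖jac e e' (e x)‖ ^ 2 : ℝ) : ℂ) * (q e' (e' x) * (Real.exp (-ψ e' (e' x)) : ℂ))
  rw [← h1, h2]
  push_cast
  ring

theorem hol_D {e e' : Ch n M} (he : e ∈ atlas (E n) M) (he' : e' ∈ atlas (E n) M) {z : E n}
    (hz : z ∈ e.target ∩ e.symm ⁻¹' e'.source) (i j : Fin n) :
    DifferentiableAt ℂ (fun z => D e e' z i j) z := by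
  have hτ : AnalyticAt ℂ (fun y => e' (e.symm y)) z := trans_analytic he he' z hz
  have h1 := hτ.fderiv.differentiableAt
  have h2 : DifferentiableAt ℂ (fun w => (fderiv ℂ (fun y => e' (e.symm y)) w)
      (Pi.single j (1 : ℂ))) z := h1.clm_apply (differentiableAt_const _)
  exact (differentiableAt_pi.1 h2) i

theorem rs_near {k : ℕ} {ψ : Fam n M ℝ} (hψ : IsPos (k + 1) ψ) {s : Fam n M ℂ}
    (hs : IsSec k s) {e e' : Ch n M} (he : e ∈ atlas (E n) M) (he' : e' ∈ atlas (E n) M) {z : E n}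
    (hz : z ∈ e.target ∩ e.symm ⁻¹' e'.source) (i : Fin n) :
    ∑ j, D e e' z i j * rs (lev (ψ e) z) (dbv (s e) z) j =
      (jac e e' z ^ k)⁻¹ * rs (lev (ψ e') (e' (e.symm z))) (dbv (s e') (e' (e.symm z))) i := by
  obtain ⟨a, b, c⟩ := of_V hz
  have hJ := jac_ne he he' hz
  refine rs_comp (hψ.pos e he z hz.1) (hψ.pos e' he' _ (e'.map_source b))
    (D := D e e' z) (fun j l => lev_near hψ.toIsWeight he he' hz j l) ?_ i
  intro j
  rw [← dbv_near hs he he' hz j]
  field_simp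

theorem contDiffOn_a {k : ℕ} {ψ : Fam n M ℝ} (hψ : IsPos (k + 1) ψ) {s : Fam n M ℂ}
    (hs : IsSec k s) {e : Ch n M} (he : e ∈ atlas (E n) M) (j : Fin n) :
    ContDiffOn ℝ ∞ (fun y => rs (lev (ψ e) y) (dbv (s e) y) j) e.target :=
  contDiffOn_rs e.open_target (hψ.smooth e he) (hψ.pos e he) (hs.smooth e he) j

/-- the derivative of the fields `a` -/
theorem db_rs_near {k : ℕ} {ψ : Fam n M ℝ} (hψ : IsPos (k + 1) ψ) {s : Fam n M ℂ}
    (hs : IsSec k s) {e e' : Ch n M} (he : e ∈ atlas (E n) M) (he' : e' ∈ atlas (E n) M) {z : E n}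
    (hz : z ∈ e.target ∩ e.symm ⁻¹' e'.source) (i m : Fin n) :
    ∑ l, db l (fun w => rs (lev (ψ e') w) (dbv (s e') w) i) (e' (e.symm z)) *
        (starRingEnd ℂ) (D e e' z l m)
      = jac e e' z ^ k * ∑ j, D e e' z i j *
        db m (fun w => rs (lev (ψ e) w) (dbv (s e) w) j) z := by
  obtain ⟨a, b, c⟩ := of_V hz
  have hJ := jac_ne he he' hz
  have hnear : (fun z => jac e e' z ^ k * ∑ j, D e e' z i j * rs (lev (ψ e) z) (dbv (s e) z) j)
      =ᶠ[𝓝 z] fun z => rs (lev (ψ e') (e' (e.symm z))) (dbv (s e') (e' (e.symm z))) i := by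
    filter_upwards [(isOpen_trans e e').mem_nhds hz] with w hw
    rw [rs_near hψ hs he he' hw i]
    have := jac_ne he he' hw
    field_simp
  have hτ : AnalyticAt ℂ (fun y => e' (e.symm y)) z := trans_analytic he he' z hz
  have hp : DifferentiableAt ℝ (fun w => rs (lev (ψ e') w) (dbv (s e') w) i) (e' (e.symm z)) :=
    diffAt_of (contDiffOn_a hψ hs he' i) e'.open_target (e'.map_source b)
  have hq : ∀ j, DifferentiableAt ℝ (fun w => rs (lev (ψ e) w) (dbv (s e) w) j) z := fun j =>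
    diffAt_of (contDiffOn_a hψ hs he j) e.open_target hz.1
  have hJd : DifferentiableAt ℂ (fun z => jac e e' z ^ k) z :=
    ((jac_analytic he he' z hz).differentiableAt).pow k
  have h1 := db_comp (τ := fun y => e' (e.symm y)) hτ.differentiableAt hp m
  have h2 := db_congr hnear m
  have hD : ∀ j, DifferentiableAt ℂ (fun z => D e e' z i j) z := fun j => hol_D he he' hz i j
  have h3 : ∀ j, DifferentiableAt ℝ (fun z => D e e' z i j *
      rs (lev (ψ e) z) (dbv (s e) z) j) z := fun j => ((hD j).restrictScalars ℝ).mul (hq j)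
  have h4 : DifferentiableAt ℝ (fun z => ∑ j, D e e' z i j *
      rs (lev (ψ e) z) (dbv (s e) z) j) z := by
    apply DifferentiableAt.fun_sum
    intro j _
    exact h3 j
  rw [db_mul (hJd.restrictScalars ℝ) h4 m, db_hol hJd m, zero_mul, zero_add,
    db_sum Finset.univ (fun j _ => h3 j) m] at h2
  have h5 : ∀ j, db m (fun z => D e e' z i j * rs (lev (ψ e) z) (dbv (s e) z) j) z =
      D e e' z i j * db m (fun w => rs (lev (ψ e) w) (dbv (s e) w) j) z := by
    intro j
    rw [db_mul ((hD j).restrictScalars ℝ) (hq j) m, db_hol (hD j) m, zero_mul, zero_add]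
  simp only [h5] at h2
  rw [h2, h1]
  rfl

end B4aux

open B4aux

/-- change of charts for the Hessian of a weight -/
theorem lev_trans {k : ℕ} {ψ : Fam n M ℝ} (hψ : IsWeight k ψ) {e e' : Ch n M}
    (he : e ∈ atlas (E n) M) (he' : e' ∈ atlas (E n) M) {x : M} (hx : x ∈ e.source)
    (hx' : x ∈ e'.source) (j l : Fin n) :
    lev (ψ e) (e x) j l = ∑ i, ∑ m,
      fderiv ℂ (fun z => e' (e.symm z)) (e x) (Pi.single j 1) i * lev (ψ e') (e' x) i m *
      (starRingEnd ℂ) (fderiv ℂ (fun z => e' (e.symm z)) (e x) (Pi.single l 1) m) := by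
  have h := lev_near hψ he he' (mem_V hx hx') j l
  rw [e.left_inv hx] at h
  exact h

theorem det_lev_trans {k : ℕ} {ψ : Fam n M ℝ} (hψ : IsWeight k ψ) {e e' : Ch n M}
    (he : e ∈ atlas (E n) M) (he' : e' ∈ atlas (E n) M) {x : M} (hx : x ∈ e.source)
    (hx' : x ∈ e'.source) :
    (lev (ψ e) (e x)).det = ((‖jac e e' (e x)‖ ^ 2 : ℝ) : ℂ) * (lev (ψ e') (e' x)).det := by
  have h : lev (ψ e) (e x) = (D e e' (e x))ᵀ * lev (ψ e') (e' x) *
      (D e e' (e x)).map (starRingEnd ℂ) := by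
    ext j l
    rw [lev_trans hψ he he' hx hx' j l]
    simp only [Matrix.mul_apply, Matrix.transpose_apply, Matrix.map_apply, Finset.sum_mul]
    rw [Finset.sum_comm]
    rfl
  have h2 : ((D e e' (e x)).map (starRingEnd ℂ)).det = (starRingEnd ℂ) (jac e e' (e x)) := by
    rw [← det_D, RingHom.map_det]
    rfl
  rw [h, Matrix.det_mul, Matrix.det_mul, Matrix.det_transpose, h2, det_D, ← Complex.normSq_eq_norm_sq,
    ← Complex.mul_conj]
  ring

theorem dbv_trans {k : ℕ} {s : Fam n M ℂ} (hs : IsSec k s) {e e' : Ch n M}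
    (he : e ∈ atlas (E n) M) (he' : e' ∈ atlas (E n) M) {x : M} (hx : x ∈ e.source)
    (hx' : x ∈ e'.source) (j : Fin n) :
    jac e e' (e x) ^ k * dbv (s e) (e x) j = ∑ l, dbv (s e') (e' x) l *
      (starRingEnd ℂ) (fderiv ℂ (fun z => e' (e.symm z)) (e x) (Pi.single j 1) l) := by
  have h := dbv_near hs he he' (mem_V hx hx') j
  rw [e.left_inv hx] at h
  exact h

theorem en_isDen {k : ℕ} {ψ : Fam n M ℝ} (hψ : IsPos (k + 1) ψ) {s t : Fam n M ℂ}
    (hs : IsSec k s) (ht : IsSec k t) : IsDen (en ψ s t) := by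
  apply den_of hψ.toIsWeight (q := fun e y => cn (lev (ψ e) y) (dbv (s e) y) (dbv (t e) y))
  intro e he e' he' z hz
  obtain ⟨a, b, c⟩ := of_V hz
  have hJ := jac_ne he he' hz
  have h := cn_comp (hψ.pos e he z hz.1) (hψ.pos e' he' _ (e'.map_source b))
    (D := D e e' z) (c := (jac e e' z ^ k)⁻¹) (d := (jac e e' z ^ k)⁻¹)
    (α := dbv (s e) z) (α' := dbv (s e') (e' (e.symm z)))
    (β := dbv (t e) z) (β' := dbv (t e') (e' (e.symm z)))
    (fun j l => lev_near hψ.toIsWeight he he' hz j l)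
    (fun j => by rw [← dbv_near hs he he' hz j]; field_simp)
    (fun j => by rw [← dbv_near ht he he' hz j]; field_simp)
  have hJ2 : (starRingEnd ℂ) (jac e e' z ^ k) ≠ 0 := by
    rw [Ne, map_eq_zero]; exact pow_ne_zero _ hJ
  have hJ3 := pow_ne_zero k hJ
  rw [h, norm_pow_eq, map_inv₀]
  field_simp

theorem qd_isDen {k : ℕ} {ψ : Fam n M ℝ} (hψ : IsPos (k + 1) ψ) {s t : Fam n M ℂ}
    (hs : IsSec k s) (ht : IsSec k t) : IsDen (qd ψ s t) := by
  apply den_of hψ.toIsWeight (q := fun e y =>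
    (∑ j, ∑ k, db k (fun z => rs (lev (ψ e) z) (dbv (s e) z) j) y *
    (starRingEnd ℂ) (db j (fun z => rs (lev (ψ e) z) (dbv (t e) z) k) y)))
  intro e he e' he' z hz
  have hJ := jac_ne he he' hz
  have h := q_comp (D := D e e' z) (c := jac e e' z ^ k) (d := jac e e' z ^ k)
    (B := Matrix.of fun j m => db m (fun w => rs (lev (ψ e) w) (dbv (s e) w) j) z)
    (B' := Matrix.of fun j m => db m (fun w => rs (lev (ψ e') w) (dbv (s e') w) j) (e' (e.symm z)))
    (C := Matrix.of fun j m => db m (fun w => rs (lev (ψ e) w) (dbv (t e) w) j) z)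
    (C' := Matrix.of fun j m => db m (fun w => rs (lev (ψ e') w) (dbv (t e') w) j) (e' (e.symm z)))
    (by rw [det_D]; exact hJ.isUnit)
    (fun i m => db_rs_near hψ hs he he' hz i m)
    (fun i m => db_rs_near hψ ht he he' hz i m)
  simp only [Matrix.of_apply] at h
  rw [h, norm_pow_eq]

theorem dl_eq {φ : Fam n M ℝ} (hφ : IsPos 1 φ) {e : Ch n M} (he : e ∈ atlas (E n) M) {x : M}
    (hx : x ∈ e.source) : dl φ x = (lev (φ e) (e x)).det.re * Real.exp (φ e (e x)) := by
  have hc : chartAt (E n) x ∈ atlas (E n) M := chart_mem_atlas _ _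
  have hxc : x ∈ (chartAt (E n) x).source := mem_chart_source _ _
  have h1 := det_lev_trans hφ.toIsWeight he hc hx hxc
  have h2 := exp_near hφ.toIsWeight he hc (mem_V hx hxc)
  rw [e.left_inv hx] at h2
  have hJ : 0 < ‖jac e (chartAt (E n) x) (e x)‖ := norm_pos_iff.2 (jac_ne_zero he hc hx hxc)
  have h3 : Real.exp (φ e (e x)) * ‖jac e (chartAt (E n) x) (e x)‖ ^ 2 =
      Real.exp (φ (chartAt (E n) x) (chartAt (E n) x x)) := by
    have h4 := congrArg (fun t => t⁻¹) h2
    simp only [mul_inv, ← Real.exp_neg, neg_neg] at h4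
    rw [h4]
    field_simp
  rw [dl, h1, Complex.re_ofReal_mul, ← h3]
  ring

theorem dl_pos {φ : Fam n M ℝ} (hφ : IsPos 1 φ) (x : M) : 0 < dl φ x := by
  have hc : chartAt (E n) x ∈ atlas (E n) M := chart_mem_atlas _ _
  have hxc : x ∈ (chartAt (E n) x).source := mem_chart_source _ _
  have h := (hφ.pos _ hc _ ((chartAt (E n) x).map_source hxc)).det_pos
  have h2 : 0 < (lev (φ (chartAt (E n) x)) (chartAt (E n) x x)).det.re := by
    rw [Complex.lt_def] at h
    exact h.1
  exact mul_pos h2 (Real.exp_pos _)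

theorem continuous_dl {φ : Fam n M ℝ} (hφ : IsPos 1 φ) : Continuous (dl φ) := by
  rw [continuous_iff_continuousAt]
  intro x
  set e := chartAt (E n) x with hedef
  have he : e ∈ atlas (E n) M := chart_mem_atlas _ _
  have hxe : x ∈ e.source := mem_chart_source _ _
  have hev : (fun y => (lev (φ e) (e y)).det.re * Real.exp (φ e (e y))) =ᶠ[𝓝 x] dl φ := by
    filter_upwards [e.open_source.mem_nhds hxe] with y hy
    exact (dl_eq hφ he hy).symm
  refine ContinuousAt.congr ?_ hev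
  have hy := e.map_source hxe
  have hcx : ContinuousAt e x := e.continuousAt hxe
  have h1 : ContinuousAt (fun y => φ e y) (e x) :=
    (contDiffAt_of (hφ.smooth e he) e.open_target hy).continuousAt
  have h2 : ContinuousAt (fun y => (lev (φ e) y)) (e x) := by
    refine continuousAt_pi.2 fun j => continuousAt_pi.2 fun l => ?_
    exact (contDiffAt_of (contDiffOn_lev e.open_target (hφ.smooth e he) j l)
      e.open_target hy).continuousAt
  have h3 : ContinuousAt (fun y => (lev (φ e) y).det.re) (e x) := by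
    have h4 : Continuous (fun A : Matrix (Fin n) (Fin n) ℂ => A.det.re) :=
      Complex.continuous_re.comp (continuous_id.matrix_det)
    exact ContinuousAt.comp (g := fun A : Matrix (Fin n) (Fin n) ℂ => A.det.re)
      h4.continuousAt h2
  have h5 : ContinuousAt (fun y => (lev (φ e) y).det.re * Real.exp (φ e y)) (e x) :=
    h3.mul (Real.continuous_exp.continuousAt.comp h1)
  exact ContinuousAt.comp (f := e)
    (g := fun y => (lev (φ e) y).det.re * Real.exp (φ e y)) h5 hcx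

end Pool.Agent.helper63.NU
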