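import Pool.Agent.helper63.NU.Defs3

set_option autoImplicit false
set_option linter.all false

/-! Module Q10: germs with the multiplicative relations of the monomials of degree `d`. -/

open MeasureTheory Filter Topology Set
open scoped ContDiff Manifold Matrix ENNReal ComplexOrder

noncomputable section

namespace Pool.Agent.helper63.NU

namespace Q10aux

variable {n d : ℕ}

/-- the multiindex `(d-1) e_i + e_j` -/
def mu (d : ℕ) (i j : Fin n) (k : Fin n) : ℕ := (if k = i then d - 1 else 0) + (if k = j then 1 else 0)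

theorem sum_mu (hd : 0 < d) (i j : Fin n) : ∑ k, mu d i j k = d := by
  simp only [mu, Finset.sum_add_distrib, Finset.sum_ite_eq', Finset.mem_univ, if_true]
  omega

theorem prod_mu (X : Fin n → ℂ) (i j : Fin n) : ∏ k, X k ^ mu d i j k = X i ^ (d - 1) * X j := by
  simp only [mu, pow_add, Finset.prod_mul_distrib]
  congr 1
  · rw [Finset.prod_eq_single i]
    · simp
    · intro b _ hb; simp [hb]
    · intro h; exact absurd (Finset.mem_univ _) h
  · rw [Finset.prod_eq_single j]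
    · simp
    · intro b _ hb; simp [hb]
    · intro h; exact absurd (Finset.mem_univ _) h

/-- principal `d`-th root -/
def rt (d : ℕ) (a : ℂ) : ℂ := Complex.exp (Complex.log a / d)

theorem re_pos_of {a : ℂ} (ha : ‖a - 1‖ < 1) : 0 < a.re := by
  have h1 : |(a - 1).re| < 1 := (Complex.abs_re_le_norm _).trans_lt ha
  rw [Complex.sub_re, Complex.one_re, abs_lt] at h1
  linarith [h1.1]

theorem rt_pow (hd : 0 < d) {a : ℂ} (ha : ‖a - 1‖ < 1) : rt d a ^ d = a := by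
  have ha0 : a ≠ 0 := by
    rintro rfl
    have := re_pos_of ha
    simp at this
  have hd0 : (d : ℂ) ≠ 0 := by exact_mod_cast hd.ne'
  rw [rt, ← Complex.exp_nat_mul, mul_div_cancel₀ _ hd0, Complex.exp_log ha0]

theorem rt_sub_one (hd : 0 < d) {a : ℂ} (ha : ‖a - 1‖ < 1) : ‖rt d a - 1‖ ≤ ‖a - 1‖ := by
  have hre := re_pos_of ha
  have harg : |a.arg| < Real.pi / 2 := Complex.abs_arg_lt_pi_div_two_iff.2 (Or.inl hre)
  have hpos : ∀ k < d, 0 < (rt d a ^ k).re := by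
    intro k hk
    rw [rt, ← Complex.exp_nat_mul, Complex.exp_re]
    apply mul_pos (Real.exp_pos _)
    have him : ((k : ℂ) * (Complex.log a / d)).im = (k / d : ℝ) * a.arg := by
      have e : (k : ℂ) * (Complex.log a / d) = ((k / d : ℝ) : ℂ) * Complex.log a := by
        push_cast; ring
      rw [e, Complex.im_ofReal_mul, Complex.log_im]
    rw [him]
    have hkd : (k : ℝ) / d ≤ 1 := by
      rw [div_le_one (by exact_mod_cast hd)]
      exact_mod_cast hk.le
    have hkd0 : 0 ≤ (k : ℝ) / d := by positivity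
    have habs : |(k / d : ℝ) * a.arg| < Real.pi / 2 := by
      rw [abs_mul, abs_of_nonneg hkd0]
      have := abs_nonneg a.arg
      nlinarith
    rw [abs_lt] at habs
    exact Real.cos_pos_of_mem_Ioo ⟨habs.1, habs.2⟩
  have hgeom := mul_geom_sum (rt d a) d
  rw [rt_pow hd ha] at hgeom
  have hone : 1 ≤ ‖∑ k ∈ Finset.range d, rt d a ^ k‖ := by
    refine le_trans ?_ (Complex.re_le_norm _)
    rw [Complex.re_sum]
    have h0 : (rt d a ^ 0).re ≤ ∑ k ∈ Finset.range d, (rt d a ^ k).re :=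
      Finset.single_le_sum (f := fun k => (rt d a ^ k).re)
        (fun k hk => (hpos k (Finset.mem_range.1 hk)).le) (Finset.mem_range.2 hd)
    simpa using h0
  calc ‖rt d a - 1‖ = ‖rt d a - 1‖ * 1 := (mul_one _).symm
    _ ≤ ‖rt d a - 1‖ * ‖∑ k ∈ Finset.range d, rt d a ^ k‖ :=
        mul_le_mul_of_nonneg_left hone (norm_nonneg _)
    _ = ‖a - 1‖ := by rw [← norm_mul, hgeom]

theorem rt_diff {a : E n → ℂ} {y : E n} (ha : ‖a y - 1‖ < 1) (hd : DifferentiableAt ℂ a y) :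
    DifferentiableAt ℂ (fun y => rt d (a y)) y := by
  have h1 : DifferentiableAt ℂ (fun y => Complex.log (a y)) y :=
    hd.clog (Complex.mem_slitPlane_iff.2 (Or.inl (re_pos_of ha)))
  have h2 : DifferentiableAt ℂ (fun y => Complex.log (a y) * (d : ℂ)⁻¹) y := h1.mul_const _
  have h3 : (fun y => rt d (a y)) = fun y => Complex.exp (Complex.log (a y) * (d : ℂ)⁻¹) := by
    funext y
    rw [rt, div_eq_mul_inv]
  rw [h3]
  exact h2.cexp

theorem div_diff {f g : E n → ℂ} {y : E n} (hf : DifferentiableAt ℂ f y)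
    (hg : DifferentiableAt ℂ g y) (h0 : g y ≠ 0) : DifferentiableAt ℂ (fun x => f x / g x) y := by
  have h1 : DifferentiableAt ℂ (fun x => f x * (g x)⁻¹) y := hf.fun_mul (hg.fun_inv h0)
  have h2 : (fun x => f x / g x) = fun x => f x * (g x)⁻¹ := by
    funext x
    rw [div_eq_mul_inv]
  rw [h2]
  exact h1

/-- uniqueness of roots -/
theorem root_unique (hd : 0 < d) {u u' : ℂ} (hu : u ≠ 0) (h : u' ^ d = u ^ d)
    (hlt : ‖u' - u‖ * d < ‖u‖) : u' = u := by
  have hun : 0 < ‖u‖ := norm_pos_iff.2 hu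
  set ζ := u' / u with hζ
  have hζd : ζ ^ d = 1 := by rw [hζ, div_pow, h, div_self (pow_ne_zero _ hu)]
  have hζ1 : ‖ζ‖ = 1 := Complex.norm_eq_one_of_pow_eq_one hζd hd.ne'
  have hz : ‖ζ - 1‖ * d < 1 := by
    have e : ζ - 1 = (u' - u) / u := by rw [hζ]; field_simp
    rw [e, norm_div, div_mul_eq_mul_div, div_lt_one hun]
    exact hlt
  have hk : ∀ k : ℕ, ‖ζ ^ k - 1‖ ≤ k * ‖ζ - 1‖ := by
    intro k
    induction k with
    | zero => simp
    | succ k ih =>
      have e : ζ ^ (k + 1) - 1 = ζ ^ k * (ζ - 1) + (ζ ^ k - 1) := by ring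
      rw [e]
      refine (norm_add_le _ _).trans ?_
      rw [norm_mul, norm_pow, hζ1, one_pow, one_mul]
      push_cast
      linarith
  have hζeq : ζ = 1 := by
    by_contra hne
    have hgeom := mul_geom_sum ζ d
    rw [hζd, sub_self] at hgeom
    have hsum : ∑ k ∈ Finset.range d, ζ ^ k = 0 :=
      (mul_eq_zero.1 hgeom).resolve_left (sub_ne_zero.2 hne)
    have h1 : ∑ k ∈ Finset.range d, (ζ ^ k - 1) = -(d : ℂ) := by
      rw [Finset.sum_sub_distrib, hsum]
      simp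
    have h2 : (d : ℝ) ≤ ∑ k ∈ Finset.range d, (k : ℝ) * ‖ζ - 1‖ := by
      have h3 : ‖∑ k ∈ Finset.range d, (ζ ^ k - 1)‖ = d := by
        rw [h1, norm_neg, Complex.norm_natCast]
      rw [← h3]
      refine (norm_sum_le _ _).trans ?_
      exact Finset.sum_le_sum fun k _ => hk k
    have h4 : ∑ k ∈ Finset.range d, (k : ℝ) * ‖ζ - 1‖ ≤ ∑ k ∈ Finset.range d, (d : ℝ) * ‖ζ - 1‖ := by
      apply Finset.sum_le_sum
      intro k hk'
      apply mul_le_mul_of_nonneg_right _ (norm_nonneg _)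
      exact_mod_cast (Finset.mem_range.1 hk').le
    rw [Finset.sum_const, Finset.card_range, nsmul_eq_mul] at h4
    have hd' : (0 : ℝ) < d := by exact_mod_cast hd
    have h5 : (d : ℝ) * (d * ‖ζ - 1‖) < d * 1 := mul_lt_mul_of_pos_left (by linarith) hd'
    linarith
  rw [hζ, div_eq_one_iff_eq hu] at hζeq
  exact hζeq

theorem exists_tau {β : Fin n → ℕ} (hβ : ∑ i, β i = d) : ∃ τ : Fin d → Fin n,
    (∀ f : Fin n → ℂ, ∏ l, f (τ l) = ∏ j, f j ^ β j) ∧
    (∀ f : Fin n → ℕ, ∑ l, f (τ l) = ∑ j, β j * f j) := by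
  subst hβ
  refine ⟨fun l => (finSigmaFinEquiv.symm l).1, fun f => ?_, fun f => ?_⟩
  · rw [Fintype.prod_equiv finSigmaFinEquiv.symm (fun l => f (finSigmaFinEquiv.symm l).1)
      (fun x : (j : Fin n) × Fin (β j) => f x.1) (fun _ => rfl), Fintype.prod_sigma]
    simp
  · rw [Fintype.sum_equiv finSigmaFinEquiv.symm (fun l => f (finSigmaFinEquiv.symm l).1)
      (fun x : (j : Fin n) × Fin (β j) => f x.1) (fun _ => rfl), Fintype.sum_sigma]
    simp

/-- the candidate for the coordinate `j`, computed with the index `i` -/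
def Yc (d : ℕ) (z a : Fin n → ℂ) (i j : Fin n) : ℂ := z i * rt d (a i / z i ^ d) * (a j / a i)

section bound

variable {z a : Fin n → ℂ} {K : ℝ} {i : Fin n}

theorem b_sub_one (hK : 0 ≤ K) (hz : 0 < ‖z‖) (hi : ‖z‖ / 2 < ‖z i‖)
    (ha : ‖a i - z i ^ d‖ ≤ K * ‖z‖ ^ (d + 1)) :
    ‖a i / z i ^ d - 1‖ ≤ K * 2 ^ d * ‖z‖ := by
  have hzi : 0 < ‖z i‖ := by linarith
  have hzi0 : z i ≠ 0 := norm_pos_iff.1 hzi
  have e : a i / z i ^ d - 1 = (a i - z i ^ d) / z i ^ d := by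
    field_simp
  rw [e, norm_div, norm_pow, div_le_iff₀ (by positivity)]
  refine ha.trans ?_
  have h1 : (‖z‖ / 2) ^ d ≤ ‖z i‖ ^ d := pow_le_pow_left₀ (by positivity) hi.le d
  calc K * ‖z‖ ^ (d + 1) = K * 2 ^ d * ‖z‖ * (‖z‖ / 2) ^ d := by
        rw [div_pow, pow_succ]; field_simp
    _ ≤ K * 2 ^ d * ‖z‖ * ‖z i‖ ^ d := by gcongr

theorem a_ne_zero (hK : 0 ≤ K) (hz : 0 < ‖z‖) (hi : ‖z‖ / 2 < ‖z i‖)
    (ha : ‖a i - z i ^ d‖ ≤ K * ‖z‖ ^ (d + 1)) (hsm : K * 2 ^ d * ‖z‖ ≤ 1 / 2) : a i ≠ 0 := by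
  intro h
  have := b_sub_one hK hz hi ha
  rw [h] at this
  simp at this
  linarith

theorem Yc_bound (hd : 0 < d) (hK : 0 ≤ K) (hz : 0 < ‖z‖) (hi : ‖z‖ / 2 < ‖z i‖)
    (ha : ∀ j, ‖a j - z i ^ (d - 1) * z j‖ ≤ K * ‖z‖ ^ (d + 1)) (hsm : K * 2 ^ d * ‖z‖ ≤ 1 / 2)
    (j : Fin n) : ‖Yc d z a i j - z j‖ ≤ 6 * K * 2 ^ d * ‖z‖ ^ 2 := by
  have hai : ‖a i - z i ^ d‖ ≤ K * ‖z‖ ^ (d + 1) := by
    have := ha i
    rwa [← pow_succ, Nat.sub_add_cancel hd] at this
  have hb := b_sub_one hK hz hi hai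
  have ha0 := a_ne_zero hK hz hi hai hsm
  have hzi : 0 < ‖z i‖ := by linarith
  have hzi0 : z i ≠ 0 := norm_pos_iff.1 hzi
  set b := a i / z i ^ d with hbdef
  set η := K * 2 ^ d * ‖z‖ with hη
  have hb0 : b ≠ 0 := div_ne_zero ha0 (pow_ne_zero _ hzi0)
  have hb1 : ‖b - 1‖ < 1 := by linarith
  have hr : ‖rt d b - 1‖ ≤ η := (rt_sub_one hd hb1).trans hb
  have hbn : 1 / 2 ≤ ‖b‖ := by
    have h1 : ‖(1 : ℂ)‖ ≤ ‖b‖ + ‖b - 1‖ := by
      have : (1 : ℂ) = b - (b - 1) := by ring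
      calc ‖(1 : ℂ)‖ = ‖b - (b - 1)‖ := by rw [← this]
        _ ≤ _ := norm_sub_le _ _
    rw [norm_one] at h1
    linarith
  set q := rt d b / b with hq
  have hq1 : ‖q - 1‖ ≤ 4 * η := by
    have e : q - 1 = ((rt d b - 1) - (b - 1)) / b := by
      rw [hq]; field_simp; ring
    rw [e, norm_div, div_le_iff₀ (norm_pos_iff.2 hb0)]
    refine (norm_sub_le _ _).trans ?_
    have hη0 : 0 ≤ η := by rw [hη]; positivity
    nlinarith
  set ε := a j / z i ^ (d - 1) - z j with hε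
  have hεn : ‖ε‖ ≤ K * 2 ^ (d - 1) * ‖z‖ ^ 2 := by
    have e : ε = (a j - z i ^ (d - 1) * z j) / z i ^ (d - 1) := by
      rw [hε]; field_simp
    rw [e, norm_div, norm_pow, div_le_iff₀ (by positivity)]
    refine (ha j).trans ?_
    have h1 : (‖z‖ / 2) ^ (d - 1) ≤ ‖z i‖ ^ (d - 1) := pow_le_pow_left₀ (by positivity) hi.le _
    calc K * ‖z‖ ^ (d + 1) = K * 2 ^ (d - 1) * ‖z‖ ^ 2 * (‖z‖ / 2) ^ (d - 1) := by
          have e2 : ‖z‖ ^ (d + 1) = ‖z‖ ^ 2 * ‖z‖ ^ (d - 1) := by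
            rw [← pow_add]; congr 1; omega
          rw [div_pow, e2]; field_simp
      _ ≤ K * 2 ^ (d - 1) * ‖z‖ ^ 2 * ‖z i‖ ^ (d - 1) := by gcongr
  have e : Yc d z a i j - z j = (q - 1) * z j + q * ε := by
    have e1 : Yc d z a i j = q * (a j / z i ^ (d - 1)) := by
      rw [Yc, ← hbdef, hq]
      have e3 : b * z i ^ d = a i := by rw [hbdef]; field_simp
      have e4 : z i ^ d = z i ^ (d - 1) * z i := by rw [← pow_succ, Nat.sub_add_cancel hd]
      rw [← e3, e4]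
      field_simp
    rw [e1, hε]; ring
  rw [e]
  have hzj : ‖z j‖ ≤ ‖z‖ := norm_le_pi_norm z j
  have hq2 : ‖q‖ ≤ 1 + 4 * η := by
    calc ‖q‖ = ‖1 + (q - 1)‖ := by congr 1; ring
      _ ≤ ‖(1 : ℂ)‖ + ‖q - 1‖ := norm_add_le _ _
      _ ≤ 1 + 4 * η := by rw [norm_one]; linarith
  have hq3 : ‖q‖ ≤ 3 := by linarith
  have h2d : (2 : ℝ) ^ d = 2 ^ (d - 1) * 2 := by rw [← pow_succ, Nat.sub_add_cancel hd]
  calc ‖(q - 1) * z j + q * ε‖ ≤ ‖q - 1‖ * ‖z j‖ + ‖q‖ * ‖ε‖ := by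
        refine (norm_add_le _ _).trans ?_
        rw [norm_mul, norm_mul]
    _ ≤ (4 * η) * ‖z‖ + 3 * (K * 2 ^ (d - 1) * ‖z‖ ^ 2) := by gcongr
    _ ≤ 6 * K * 2 ^ d * ‖z‖ ^ 2 := by
        rw [hη, h2d]
        have : 0 ≤ K * 2 ^ (d - 1) * ‖z‖ ^ 2 := by positivity
        nlinarith

end bound

theorem Yc_prod (hd : 0 < d) {s : (Fin n → ℕ) → ℂ} {z : Fin n → ℂ} {i : Fin n}
    (hrel : ∀ (γ γ' : Fin d → Fin n → ℕ), (∀ i, ∑ j, γ i j = d) → (∀ i, ∑ j, γ' i j = d) →
      ∑ i, γ i = ∑ i, γ' i → ∏ i, s (γ i) = ∏ i, s (γ' i))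
    (hzi : z i ≠ 0) (ha : s (mu d i i) ≠ 0) (hb : ‖s (mu d i i) / z i ^ d - 1‖ < 1)
    {β : Fin n → ℕ} (hβ : ∑ i, β i = d) :
    ∏ j, Yc d z (fun j => s (mu d i j)) i j ^ β j = s β := by
  obtain ⟨τ, hτ, hτ'⟩ := exists_tau hβ
  have key : s (mu d i i) ^ (d - 1) * s β = ∏ j, s (mu d i j) ^ β j := by
    obtain ⟨m, rfl⟩ : ∃ m, d = m + 1 := ⟨d - 1, by omega⟩
    rw [← hτ (fun j => s (mu (m + 1) i j))]
    have h := hrel (Fin.cons β (fun _ => mu (m + 1) i i)) (fun l => mu (m + 1) i (τ l)) ?_ ?_ ?_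
    · rw [← h, Fin.prod_univ_succ]
      simp only [Fin.cons_zero, Fin.cons_succ, Finset.prod_const, Finset.card_univ,
        Fintype.card_fin, Nat.add_sub_cancel]
      ring
    · intro l
      refine Fin.cases ?_ (fun l => ?_) l
      · simpa using hβ
      · simpa using sum_mu (Nat.succ_pos m) i i
    · intro l
      exact sum_mu (Nat.succ_pos m) i _
    · funext k
      rw [Finset.sum_apply, Finset.sum_apply, hτ' (fun j => mu (m + 1) i j k), Fin.sum_univ_succ]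
      simp only [Fin.cons_zero, Fin.cons_succ, Finset.sum_const, Finset.card_univ,
        Fintype.card_fin, smul_eq_mul]
      simp only [mu, Nat.add_sub_cancel, mul_add, Finset.sum_add_distrib, mul_ite, mul_one,
        mul_zero, Finset.sum_ite_eq, Finset.mem_univ, if_true]
      by_cases hk : k = i
      · simp only [hk, if_true]
        rw [← Finset.sum_mul, hβ]; ring
      · simp [hk]
  have h1 : ∏ j, Yc d z (fun j => s (mu d i j)) i j ^ β j
      = (z i * rt d (s (mu d i i) / z i ^ d) / s (mu d i i)) ^ d * ∏ j, s (mu d i j) ^ β j := by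
    have : ∀ j, Yc d z (fun j => s (mu d i j)) i j ^ β j
        = (z i * rt d (s (mu d i i) / z i ^ d) / s (mu d i i)) ^ β j * s (mu d i j) ^ β j := by
      intro j
      rw [← mul_pow, Yc]
      congr 1
      ring
    simp only [this, Finset.prod_mul_distrib, Finset.prod_pow_eq_pow_sum, hβ]
  rw [h1, div_pow, mul_pow, rt_pow hd hb, ← key]
  have h2 : s (mu d i i) ^ d = s (mu d i i) ^ (d - 1) * s (mu d i i) := by
    rw [← pow_succ, Nat.sub_add_cancel hd]
  rw [h2]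
  have h3 : z i ^ d ≠ 0 := pow_ne_zero _ hzi
  have h4 : s (mu d i i) ^ (d - 1) ≠ 0 := pow_ne_zero _ ha
  field_simp

theorem vec_unique (hd : 0 < d) {X X' z : Fin n → ℂ} {C : ℝ} (hC : 0 ≤ C) (hz : 0 < ‖z‖) {i : Fin n}
    (hi : ‖z i‖ = ‖z‖) (hX : ∀ j, ‖X j - z j‖ ≤ C * ‖z‖ ^ 2) (hX' : ∀ j, ‖X' j - z j‖ ≤ C * ‖z‖ ^ 2)
    (hsm : (2 * d + 1) * C * ‖z‖ < 1)
    (h : ∀ β : Fin n → ℕ, ∑ i, β i = d → ∏ j, X j ^ β j = ∏ j, X' j ^ β j) : X = X' := by
  have hXi : ‖z‖ - C * ‖z‖ ^ 2 ≤ ‖X i‖ := by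
    have : ‖z i‖ ≤ ‖X i‖ + ‖X i - z i‖ := by
      calc ‖z i‖ = ‖X i - (X i - z i)‖ := by congr 1; ring
        _ ≤ _ := norm_sub_le _ _
    have := hX i
    linarith
  have hlt : (2 * C * ‖z‖ ^ 2) * d < ‖z‖ - C * ‖z‖ ^ 2 := by nlinarith
  have h0 : 0 < ‖X i‖ := by
    have : 0 ≤ (2 * C * ‖z‖ ^ 2) * d := by positivity
    linarith
  have hXi0 : X i ≠ 0 := norm_pos_iff.1 h0
  have hdiff : ‖X' i - X i‖ ≤ 2 * C * ‖z‖ ^ 2 := by
    calc ‖X' i - X i‖ = ‖(X' i - z i) - (X i - z i)‖ := by congr 1; ring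
      _ ≤ ‖X' i - z i‖ + ‖X i - z i‖ := norm_sub_le _ _
      _ ≤ 2 * C * ‖z‖ ^ 2 := by
        have := hX i; have := hX' i; linarith
  have hpow : X' i ^ d = X i ^ d := by
    have := h (mu d i i) (sum_mu hd i i)
    rw [prod_mu, prod_mu, ← pow_succ, ← pow_succ, Nat.sub_add_cancel hd] at this
    exact this.symm
  have hi' : X' i = X i := by
    apply root_unique hd hXi0 hpow
    calc ‖X' i - X i‖ * d ≤ (2 * C * ‖z‖ ^ 2) * d := by gcongr
      _ < ‖z‖ - C * ‖z‖ ^ 2 := hlt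
      _ ≤ ‖X i‖ := hXi
  funext j
  have := h (mu d i j) (sum_mu hd i j)
  rw [prod_mu, prod_mu, hi'] at this
  exact mul_left_cancel₀ (pow_ne_zero _ hXi0) this

end Q10aux

open Q10aux in
/-- a system of germs with the multiplicative relations of the monomials of degree `d` consists of
the monomials in suitable coordinates -/
theorem roots {n : ℕ} (hn : 0 < n) {d : ℕ} (hd : 0 < d) {U : Set (E n)} (hU : IsOpen U) {p : E n}
    (hp : p ∈ U) {s : (Fin n → ℕ) → E n → ℂ}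
    (hs : ∀ β, ∑ i, β i = d → DifferentiableOn ℂ (s β) U)
    (hlead : ∀ β, ∑ i, β i = d → VanO (fun y => s β y - ∏ i, (y i - p i) ^ β i) p (d + 1))
    (hrel : ∀ (r : ℕ) (γ γ' : Fin r → Fin n → ℕ), (∀ i, ∑ j, γ i j = d) → (∀ i, ∑ j, γ' i j = d) →
      ∑ i, γ i = ∑ i, γ' i → ∀ y ∈ U, ∏ i, s (γ i) y = ∏ i, s (γ' i) y) :
    ∃ X : Fin n → E n → ℂ, (∀ j, HolAt (X j) p) ∧
      (∀ j, VanO (fun y => X j y - (y j - p j)) p 2) ∧
      ∀ β, ∑ i, β i = d → ∀ᶠ y in 𝓝 p, s β y = ∏ j, X j y ^ β j := by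
  classical
  have hidx : ∀ y : E n, ∃ i : Fin n, ‖y i - p i‖ = ‖y - p‖ := by
    intro y
    rcases (norm_nonneg (y - p)).eq_or_lt with h | h
    · refine ⟨⟨0, hn⟩, ?_⟩
      have h1 : y - p = 0 := norm_eq_zero.1 h.symm
      have h2 : y = p := sub_eq_zero.1 h1
      subst h2
      simp
    · by_contra hcon
      push Not at hcon
      have : ‖y - p‖ < ‖y - p‖ := (pi_norm_lt_iff h).2 fun i =>
        lt_of_le_of_ne (norm_le_pi_norm (y - p) i) (hcon i)
      exact lt_irrefl _ this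
  choose idx hidx using hidx
  -- uniform constants
  have hK : ∃ K : ℝ, 0 ≤ K ∧ ∀ᶠ y in 𝓝 p, ∀ i j : Fin n,
      ‖s (mu d i j) y - (y i - p i) ^ (d - 1) * (y j - p j)‖ ≤ K * ‖y - p‖ ^ (d + 1) := by
    have h1 : ∀ ij : Fin n × Fin n, ∃ K : ℝ, ∀ᶠ y in 𝓝 p,
        ‖s (mu d ij.1 ij.2) y - (y ij.1 - p ij.1) ^ (d - 1) * (y ij.2 - p ij.2)‖
          ≤ K * ‖y - p‖ ^ (d + 1) := by
      intro ij
      obtain ⟨K, hK⟩ := hlead (mu d ij.1 ij.2) (sum_mu hd _ _)
      refine ⟨K, hK.mono fun y hy => ?_⟩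
      have e : ∏ k, (y k - p k) ^ mu d ij.1 ij.2 k = (y ij.1 - p ij.1) ^ (d - 1) * (y ij.2 - p ij.2) :=
        prod_mu (fun k => y k - p k) ij.1 ij.2
      simp only [e] at hy
      exact hy
    choose K hK using h1
    refine ⟨∑ ij, |K ij|, by positivity, ?_⟩
    have h2 : ∀ᶠ y in 𝓝 p, ∀ ij : Fin n × Fin n,
        ‖s (mu d ij.1 ij.2) y - (y ij.1 - p ij.1) ^ (d - 1) * (y ij.2 - p ij.2)‖
          ≤ K ij * ‖y - p‖ ^ (d + 1) := eventually_all.2 hK
    filter_upwards [h2] with y hy i j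
    refine (hy (i, j)).trans ?_
    have : K (i, j) ≤ ∑ ij, |K ij| := (le_abs_self _).trans
      (Finset.single_le_sum (f := fun ij => |K ij|) (fun _ _ => abs_nonneg _) (Finset.mem_univ (i, j)))
    gcongr
  obtain ⟨K, hK0, hK⟩ := hK
  set C : ℝ := 6 * K * 2 ^ d with hC
  have hC0 : 0 ≤ C := by positivity
  -- a radius
  have hsmall : ∀ᶠ y in 𝓝 p, K * 2 ^ d * ‖y - p‖ ≤ 1 / 2 ∧ (2 * d + 1) * C * ‖y - p‖ < 1 := by
    have hc : Tendsto (fun y : E n => ‖y - p‖) (𝓝 p) (𝓝 0) := by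
      have : Continuous fun y : E n => ‖y - p‖ := by fun_prop
      simpa using this.tendsto p
    have h1 : Tendsto (fun y : E n => K * 2 ^ d * ‖y - p‖) (𝓝 p) (𝓝 0) := by
      simpa using hc.const_mul (K * 2 ^ d)
    have h2 : Tendsto (fun y : E n => (2 * d + 1) * C * ‖y - p‖) (𝓝 p) (𝓝 0) := by
      simpa using hc.const_mul ((2 * d + 1) * C)
    exact (h1.eventually (Iic_mem_nhds (by norm_num))).and (h2.eventually (Iio_mem_nhds (by norm_num)))
  obtain ⟨R, hR, hball⟩ := Metric.eventually_nhds_iff_ball.1 ((hK.and hsmall).and (hU.mem_nhds hp))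
  have hallU : ∀ y ∈ Metric.ball p R, y ∈ U := fun y hy => (hball y hy).2
  set Y : Fin n → Fin n → E n → ℂ := fun i j y =>
    Yc d (fun k => y k - p k) (fun k => s (mu d i k) y) i j with hY
  have hnorm : ∀ y : E n, ‖(fun k => y k - p k : Fin n → ℂ)‖ = ‖y - p‖ := fun y => rfl
  -- the estimates at the points of the ball
  have hbound : ∀ y ∈ Metric.ball p R, 0 < ‖y - p‖ → ∀ i, ‖y - p‖ / 2 < ‖y i - p i‖ → ∀ j,
      ‖Y i j y - (y j - p j)‖ ≤ C * ‖y - p‖ ^ 2 := by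
    intro y hy h0 i hi j
    exact Yc_bound (z := fun k => y k - p k) hd hK0 h0 hi (fun j => (hball y hy).1.1 i j)
      (hball y hy).1.2.1 j
  have hai : ∀ y ∈ Metric.ball p R, ∀ i, ‖s (mu d i i) y - (y i - p i) ^ d‖ ≤ K * ‖y - p‖ ^ (d + 1) := by
    intro y hy i
    have := (hball y hy).1.1 i i
    rwa [← pow_succ, Nat.sub_add_cancel hd] at this
  have hane : ∀ y ∈ Metric.ball p R, 0 < ‖y - p‖ → ∀ i, ‖y - p‖ / 2 < ‖y i - p i‖ →
      s (mu d i i) y ≠ 0 := by
    intro y hy h0 i hi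
    exact a_ne_zero (z := fun k => y k - p k) (a := fun k => s (mu d i k) y) hK0 h0 hi (hai y hy i)
      (hball y hy).1.2.1
  have hb1 : ∀ y ∈ Metric.ball p R, 0 < ‖y - p‖ → ∀ i, ‖y - p‖ / 2 < ‖y i - p i‖ →
      ‖s (mu d i i) y / (y i - p i) ^ d - 1‖ < 1 := by
    intro y hy h0 i hi
    have := b_sub_one (z := fun k => y k - p k) (a := fun k => s (mu d i k) y) hK0 h0 hi (hai y hy i)
    have h2 := (hball y hy).1.2.1
    exact lt_of_le_of_lt (this.trans h2) (by norm_num)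
  have hprod : ∀ y ∈ Metric.ball p R, 0 < ‖y - p‖ → ∀ i, ‖y - p‖ / 2 < ‖y i - p i‖ → ∀ β,
      ∑ i, β i = d → ∏ j, Y i j y ^ β j = s β y := by
    intro y hy h0 i hi β hβ
    have hzi : y i - p i ≠ 0 := by
      rw [← norm_pos_iff]; linarith
    exact Yc_prod (s := fun β => s β y) (z := fun k => y k - p k) hd
      (fun γ γ' h1 h2 h3 => hrel d γ γ' h1 h2 h3 y (hallU y hy)) hzi (hane y hy h0 i hi)
      (hb1 y hy h0 i hi) hβ
  have huniq : ∀ y ∈ Metric.ball p R, 0 < ‖y - p‖ → ∀ i, ‖y - p‖ / 2 < ‖y i - p i‖ → ∀ j,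
      Y (idx y) j y = Y i j y := by
    intro y hy h0 i hi j
    have hi' : ‖y - p‖ / 2 < ‖y (idx y) - p (idx y)‖ := by rw [hidx y]; linarith
    have := vec_unique (X := fun j => Y (idx y) j y) (X' := fun j => Y i j y)
      (z := fun k => y k - p k) (C := C) (i := idx y) hd hC0 h0 (hidx y)
      (hbound y hy h0 _ hi') (hbound y hy h0 _ hi) (hball y hy).1.2.2
      (fun β hβ => by rw [hprod y hy h0 _ hi' β hβ, hprod y hy h0 _ hi β hβ])
    exact congrFun this j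
  have hXp : ∀ j, Y (idx p) j p = 0 := by
    intro j
    simp [hY, Yc]
  have hXb : ∀ y ∈ Metric.ball p R, ∀ j, ‖Y (idx y) j y - (y j - p j)‖ ≤ C * ‖y - p‖ ^ 2 := by
    intro y hy j
    rcases (norm_nonneg (y - p)).eq_or_lt with h | h
    · have h2 : y = p := sub_eq_zero.1 (norm_eq_zero.1 h.symm)
      subst h2
      rw [hXp]
      simp
    · exact hbound y hy h _ (by rw [hidx y]; linarith) j
  refine ⟨fun j y => Y (idx y) j y, fun j => ?_, fun j => ?_, fun β hβ => ?_⟩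
  · -- holomorphy
    filter_upwards [Metric.ball_mem_nhds p hR] with y hy
    rcases (norm_nonneg (y - p)).eq_or_lt with h | h
    · have h2 : y = p := sub_eq_zero.1 (norm_eq_zero.1 h.symm)
      subst h2
      have hfd : HasFDerivAt (fun x => Y (idx x) j x)
          (ContinuousLinearMap.proj (R := ℂ) (φ := fun _ : Fin n => ℂ) j) y := by
        rw [hasFDerivAt_iff_isLittleO]
        have hO : (fun x => Y (idx x) j x - Y (idx y) j y -
            (ContinuousLinearMap.proj (R := ℂ) (φ := fun _ : Fin n => ℂ) j) (x - y))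
            =O[𝓝 y] fun x => ‖x - y‖ ^ 2 := by
          apply Asymptotics.IsBigO.of_bound C
          filter_upwards [Metric.ball_mem_nhds y hR] with x hx
          rw [hXp, sub_zero]
          simpa using hXb x hx j
        refine hO.trans_isLittleO ?_
        have h3 : (fun x : E n => ‖x - y‖ ^ 2) =o[𝓝 y] fun x => ‖x - y‖ := by
          have h4 : (fun t : ℝ => t ^ 2) =o[𝓝 0] fun t => t := by
            simpa using Asymptotics.isLittleO_pow_id (𝕜 := ℝ) (n := 2) (by norm_num)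
          have hc : Tendsto (fun x : E n => ‖x - y‖) (𝓝 y) (𝓝 0) := by
            have : Continuous fun x : E n => ‖x - y‖ := by fun_prop
            simpa using this.tendsto y
          exact h4.comp_tendsto hc
        exact Asymptotics.isLittleO_norm_right.1 h3
      exact hfd.differentiableAt
    · have hi0 : ‖y - p‖ / 2 < ‖y (idx y) - p (idx y)‖ := by rw [hidx y]; linarith
      set i := idx y with hi
      have hev : (fun x => Y (idx x) j x) =ᶠ[𝓝 y] fun x => Y i j x := by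
        have e1 : ∀ᶠ x in 𝓝 y, 0 < ‖x - p‖ := by
          have : Continuous fun x : E n => ‖x - p‖ := by fun_prop
          exact this.tendsto y |>.eventually (Ioi_mem_nhds h)
        have e2 : ∀ᶠ x in 𝓝 y, ‖x - p‖ / 2 < ‖x i - p i‖ := by
          have c1 : Continuous fun x : E n => ‖x - p‖ / 2 := by fun_prop
          have c2 : Continuous fun x : E n => ‖x i - p i‖ := by fun_prop
          exact (isOpen_lt c1 c2).mem_nhds hi0
        filter_upwards [e1, e2, Metric.isOpen_ball.mem_nhds hy] with x h1 h2 h3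
        exact huniq x h3 h1 i h2 j
      refine DifferentiableAt.congr_of_eventuallyEq ?_ hev
      have hzi : y i - p i ≠ 0 := by
        rw [← norm_pos_iff]; linarith
      have hz : DifferentiableAt ℂ (fun x : E n => x i - p i) y := by fun_prop
      have hsd : ∀ k, DifferentiableAt ℂ (fun x => s (mu d i k) x) y := fun k =>
        (hs _ (sum_mu hd i k)).differentiableAt (hU.mem_nhds (hallU y hy))
      have hzd : DifferentiableAt ℂ (fun x : E n => (x i - p i) ^ d) y := hz.fun_pow d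
      have hq : DifferentiableAt ℂ (fun x : E n => s (mu d i i) x / (x i - p i) ^ d) y :=
        div_diff (hsd i) hzd (pow_ne_zero _ hzi)
      have hr := rt_diff (d := d) (hb1 y hy h i hi0) hq
      exact (hz.fun_mul hr).fun_mul (div_diff (hsd j) (hsd i) (hane y hy h i hi0))
  · refine ⟨C, ?_⟩
    filter_upwards [Metric.ball_mem_nhds p hR] with y hy
    exact hXb y hy j
  · filter_upwards [Metric.ball_mem_nhds p hR] with y hy
    rcases (norm_nonneg (y - p)).eq_or_lt with h | h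
    · have h2 : y = p := sub_eq_zero.1 (norm_eq_zero.1 h.symm)
      subst h2
      obtain ⟨K', hK'⟩ := hlead β hβ
      have := hK'.self_of_nhds
      simp only [sub_self, norm_zero] at this
      rw [zero_pow (by omega), mul_zero] at this
      have h3 := norm_le_zero_iff.1 this
      rw [sub_eq_zero] at h3
      rw [h3]
      simp only [hXp]
    · exact (hprod y hy h _ (by rw [hidx y]; linarith) β hβ).symm

end Pool.Agent.helper63.NU
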