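import Pool.Agent.helper63.NU.Defs2
import Pool.Agent.helper63.NU.Stmt
import Pool.Agent.helper41.NU.A1
import Pool.Agent.helper41.NU.A2
import Pool.Agent.helper69.NU.B1
import Pool.Agent.helper51.NU.B3
import Pool.Agent.helper80.NU.B4
import Pool.Agent.helper5.NU.H1

set_option autoImplicit false
set_option linter.all false

/-! Module H2: Perelman's functional of the test function given by the Ricci potential. -/

open MeasureTheory Filter Topology Set
open scoped ContDiff Manifold Matrix ENNReal ComplexOrder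

noncomputable section

namespace Pool.Agent.helper63.NU

variable {n : ℕ} {M : Type*} [TopologicalSpace M] [ChartedSpace (E n) M]
  [IsManifold 𝓘(ℂ, E n) ω M]

namespace H2aux

open B4aux

theorem contDiffOn_det {U : Set (E n)} {A : E n → Matrix (Fin n) (Fin n) ℂ}
    (hA : ∀ j k, ContDiffOn ℝ ∞ (fun y => A y j k) U) : ContDiffOn ℝ ∞ (fun y => (A y).det) U := by
  simp only [Matrix.det_apply]
  refine ContDiffOn.sum (fun σ _ => ?_)
  have h : ContDiffOn ℝ ∞ (fun y => ∏ i, A y (σ i) i) U := by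
    apply contDiffOn_prod
    intro i _
    exact hA _ _
  have h2 : (fun y => Equiv.Perm.sign σ • ∏ i, A y (σ i) i) =
      fun y => (((Equiv.Perm.sign σ : ℤˣ) : ℤ) : ℝ) • ∏ i, A y (σ i) i := by
    ext y
    simp [Units.smul_def]
  rw [h2]
  exact h.const_smul _

theorem contDiffOn_detre {φ : Fam n M ℝ} (hφ : IsPos 1 φ) {e : Ch n M} (he : e ∈ atlas (E n) M) :
    ContDiffOn ℝ ∞ (fun y => (lev (φ e) y).det.re) e.target := by
  have h := contDiffOn_det (A := fun y => lev (φ e) y)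
    (fun j k => contDiffOn_lev e.open_target (hφ.smooth e he) j k)
  exact Complex.reCLM.contDiff.comp_contDiffOn h

theorem detre_pos {φ : Fam n M ℝ} (hφ : IsPos 1 φ) {e : Ch n M} (he : e ∈ atlas (E n) M)
    {y : E n} (hy : y ∈ e.target) : 0 < (lev (φ e) y).det.re := by
  have h := (hφ.pos _ he _ hy).det_pos
  rw [Complex.lt_def] at h
  exact h.1

theorem det_unit {φ : Fam n M ℝ} (hφ : IsPos 1 φ) {e : Ch n M} (he : e ∈ atlas (E n) M)
    {y : E n} (hy : y ∈ e.target) : IsUnit (lev (φ e) y).det :=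
  (hφ.pos _ he _ hy).det_pos.ne'.isUnit

/-- `u = log dl φ` -/
def uu (φ : Fam n M ℝ) (x : M) : ℝ := Real.log (dl φ x)

theorem uu_eq {φ : Fam n M ℝ} (hφ : IsPos 1 φ) {e : Ch n M} (he : e ∈ atlas (E n) M)
    {y : E n} (hy : y ∈ e.target) :
    uu φ (e.symm y) = Real.log (lev (φ e) y).det.re + φ e y := by
  have hx := e.map_target hy
  have h := dl_eq hφ he hx
  rw [e.right_inv hy] at h
  rw [uu, h, Real.log_mul (detre_pos hφ he hy).ne' (Real.exp_pos _).ne', Real.log_exp]

theorem contDiffOn_uu {φ : Fam n M ℝ} (hφ : IsPos 1 φ) {e : Ch n M} (he : e ∈ atlas (E n) M) :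
    ContDiffOn ℝ ∞ (fun y => uu φ (e.symm y)) e.target := by
  have h1 : ContDiffOn ℝ ∞ (fun y => Real.log (lev (φ e) y).det.re) e.target :=
    (contDiffOn_detre hφ he).log (fun y hy => (detre_pos hφ he hy).ne')
  refine ContDiffOn.congr (h1.add (hφ.smooth e he)) ?_
  intro y hy
  exact uu_eq hφ he hy

theorem continuous_uu {φ : Fam n M ℝ} (hφ : IsPos 1 φ) : Continuous (uu φ) := by
  apply Continuous.log (continuous_dl hφ)
  intro x
  exact (dl_pos hφ x).ne'

theorem sm_of_real {g : ℝ → ℝ} (hg : ContDiff ℝ ∞ g) {φ : Fam n M ℝ} (hφ : IsPos 1 φ) :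
    Sm n (fun x => ((g (uu φ x) : ℝ) : ℂ)) := by
  intro e he
  exact Complex.ofRealCLM.contDiff.comp_contDiffOn (hg.comp_contDiffOn (contDiffOn_uu hφ he))

/-- a function on `M` as a weight on the trivial bundle -/
theorem isWeight_zero {v : M → ℝ} (hv : Sm n (fun x => ((v x : ℝ) : ℂ))) :
    IsWeight 0 (fun e y => v (e.symm y) : Fam n M ℝ) where
  smooth := by
    intro e he
    have h := Complex.reCLM.contDiff.comp_contDiffOn (hv e he)
    exact h
  trans := by
    intro e he e' he' x hx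
    simp [e.left_inv hx.1, e'.left_inv hx.2]

/-- the trace does not depend on the chart -/
theorem tr_near {φ : Fam n M ℝ} (hφ : IsPos 1 φ) {v : M → ℝ} (hv : Sm n (fun x => ((v x : ℝ) : ℂ)))
    {e e' : Ch n M} (he : e ∈ atlas (E n) M) (he' : e' ∈ atlas (E n) M) {x : M}
    (hx : x ∈ e.source) (hx' : x ∈ e'.source) :
    (∑ j, ∑ k, (lev (φ e) (e x))⁻¹ k j * lev (fun z => v (e.symm z)) (e x) j k) =
    ∑ j, ∑ k, (lev (φ e') (e' x))⁻¹ k j * lev (fun z => v (e'.symm z)) (e' x) j k := by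
  have tr_eq : ∀ A B : Matrix (Fin n) (Fin n) ℂ, ∑ j, ∑ k, A⁻¹ k j * B j k = (A⁻¹ * B).trace := by
    intro A B
    rw [Finset.sum_comm]
    rfl
  rw [tr_eq, tr_eq]
  set Θ := lev (φ e) (e x) with hΘ
  set Θ' := lev (φ e') (e' x) with hΘ'
  set Λ := lev (fun z => v (e.symm z)) (e x) with hΛ
  set Λ' := lev (fun z => v (e'.symm z)) (e' x) with hΛ'
  set P := (D e e' (e x)) with hP
  have h1 : Θ = Pᵀ * Θ' * P.map (starRingEnd ℂ) := by
    ext j l
    rw [hΘ, lev_trans hφ.toIsWeight he he' hx hx' j l]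
    simp only [Matrix.mul_apply, Matrix.transpose_apply, Matrix.map_apply, Finset.sum_mul]
    rw [Finset.sum_comm]
    rfl
  have h2 : Λ = Pᵀ * Λ' * P.map (starRingEnd ℂ) := by
    ext j l
    rw [hΛ]
    refine (lev_trans (isWeight_zero hv) he he' hx hx' j l).trans ?_
    simp only [Matrix.mul_apply, Matrix.transpose_apply, Matrix.map_apply, Finset.sum_mul]
    rw [Finset.sum_comm]
    rfl
  have hJ : jac e e' (e x) ≠ 0 := jac_ne_zero he he' hx hx'
  have hPd : IsUnit P.det := by rw [hP, det_D]; exact hJ.isUnit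
  have hPt : IsUnit Pᵀ.det := by rw [Matrix.det_transpose]; exact hPd
  have hQd : IsUnit (P.map (starRingEnd ℂ)).det := by
    have h3 : (P.map (starRingEnd ℂ)).det = (starRingEnd ℂ) P.det := by
      rw [RingHom.map_det]; rfl
    rw [h3]
    exact hPd.map _
  have hT : IsUnit Θ'.det := det_unit hφ he' (e'.map_source hx')
  rw [h1, h2, Matrix.mul_inv_rev, Matrix.mul_inv_rev]
  set Q := P.map (starRingEnd ℂ) with hQ
  have h4 : Q⁻¹ * (Θ'⁻¹ * Pᵀ⁻¹) * (Pᵀ * Λ' * Q) = Q⁻¹ * ((Θ'⁻¹ * Λ') * Q) := by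
    have h5 : Pᵀ⁻¹ * (Pᵀ * (Λ' * Q)) = Λ' * Q := by
      rw [← Matrix.mul_assoc, Matrix.nonsing_inv_mul _ hPt, Matrix.one_mul]
    simp only [Matrix.mul_assoc]
    rw [h5]
  rw [h4, Matrix.trace_mul_comm, Matrix.mul_assoc, Matrix.mul_nonsing_inv _ hQd, Matrix.mul_one]

theorem lap_eq {φ : Fam n M ℝ} (hφ : IsPos 1 φ) {v : M → ℝ} (hv : Sm n (fun x => ((v x : ℝ) : ℂ)))
    {e : Ch n M} (he : e ∈ atlas (E n) M) {x : M} (hx : x ∈ e.source) :
    lap φ v x = (∑ j, ∑ k, (lev (φ e) (e x))⁻¹ k j *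
      lev (fun z => v (e.symm z)) (e x) j k).re := by
  rw [lap, tr_near hφ hv (chart_mem_atlas _ _) he (mem_chart_source _ _) hx]

theorem continuous_lap {φ : Fam n M ℝ} (hφ : IsPos 1 φ) {v : M → ℝ}
    (hv : Sm n (fun x => ((v x : ℝ) : ℂ))) : Continuous (lap φ v) := by
  rw [continuous_iff_continuousAt]
  intro x
  set e := chartAt (E n) x with hedef
  have he : e ∈ atlas (E n) M := chart_mem_atlas _ _
  have hxe : x ∈ e.source := mem_chart_source _ _
  have hev : (fun y => (∑ j, ∑ k, (lev (φ e) (e y))⁻¹ k j *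
      lev (fun z => v (e.symm z)) (e y) j k).re) =ᶠ[𝓝 x] lap φ v := by
    filter_upwards [e.open_source.mem_nhds hxe] with y hy
    exact (lap_eq hφ hv he hy).symm
  refine ContinuousAt.congr ?_ hev
  have hy := e.map_source hxe
  have hcx : ContinuousAt e x := e.continuousAt hxe
  have h0 := (isWeight_zero hv).smooth e he
  have h1 : ∀ j k, ContinuousAt (fun y => (lev (φ e) y)⁻¹ k j *
      lev (fun z => v (e.symm z)) y j k) (e x) := by
    intro j k
    have a1 := (contDiffAt_of (contDiffOn_lev_inv e.open_target (hφ.smooth e he) (hφ.pos e he) k j)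
      e.open_target hy).continuousAt
    have a2 := (contDiffAt_of (contDiffOn_lev e.open_target h0 j k)
      e.open_target hy).continuousAt
    exact a1.mul a2
  have h2 : ContinuousAt (fun y => (∑ j, ∑ k, (lev (φ e) y)⁻¹ k j *
      lev (fun z => v (e.symm z)) y j k).re) (e x) := by
    apply Complex.continuous_re.continuousAt.comp
    apply tendsto_finsetSum
    intro j _
    apply tendsto_finsetSum
    intro k _
    exact h1 j k
  exact ContinuousAt.comp (f := e) (g := fun y => (∑ j, ∑ k, (lev (φ e) y)⁻¹ k j *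
      lev (fun z => v (e.symm z)) y j k).re) h2 hcx

/-- `v = e^{-u}` -/
def vv (φ : Fam n M ℝ) (x : M) : ℝ := Real.exp (-uu φ x)

/-- the test function -/
def ff (φ : Fam n M ℝ) (Z : ℝ) (x : M) : ℝ := Real.exp (-(Real.log Z + uu φ x) / 2)

/-- `∑ Θ⁻¹_{kj} ∂_j u ∂̄_k u` -/
def GG (φ : Fam n M ℝ) (x : M) : ℂ :=
  ∑ j, ∑ k, (lev (φ (chartAt (E n) x)) (chartAt (E n) x x))⁻¹ k j *
    dz j (fun z => ((uu φ ((chartAt (E n) x).symm z) : ℝ) : ℂ)) (chartAt (E n) x x) *
    db k (fun z => ((uu φ ((chartAt (E n) x).symm z) : ℝ) : ℂ)) (chartAt (E n) x x)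

theorem inv_smul_lev {φ : Fam n M ℝ} (hφ : IsPos 1 φ) {e : Ch n M} (he : e ∈ atlas (E n) M)
    {y : E n} (hy : y ∈ e.target) {lam : ℝ} (hlam : 0 < lam) :
    (((2 * lam : ℝ) : ℂ) • lev (φ e) y)⁻¹ = ((2 * lam : ℝ) : ℂ)⁻¹ • (lev (φ e) y)⁻¹ := by
  have hu : IsUnit (lev (φ e) y).det := det_unit hφ he hy
  have h0 : ((2 * lam : ℝ) : ℂ) ≠ 0 := by
    rw [Ne, Complex.ofReal_eq_zero]; positivity
  apply Matrix.inv_eq_right_inv
  rw [Matrix.smul_mul, Matrix.mul_smul, smul_smul, mul_inv_cancel₀ h0, one_smul,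
    Matrix.mul_nonsing_inv _ hu]

theorem logdet_near {φ : Fam n M ℝ} (hφ : IsPos 1 φ) {lam : ℝ} (hlam : 0 < lam) {h : MFam n M}
    (hh : ∀ e ∈ atlas (E n) M, ∀ y ∈ e.target, h e y = ((2 * lam : ℝ) : ℂ) • lev (φ e) y)
    {e : Ch n M} (he : e ∈ atlas (E n) M) {y : E n} (hy : y ∈ e.target) :
    (h e y).det.re = (2 * lam) ^ n * (lev (φ e) y).det.re := by
  rw [hh e he y hy, Matrix.det_smul, Fintype.card_fin, ← Complex.ofReal_pow, Complex.re_ofReal_mul]

theorem scal_eq {φ : Fam n M ℝ} (hφ : IsPos 1 φ) {lam : ℝ} (hlam : 0 < lam) {h : MFam n M}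
    (hh : ∀ e ∈ atlas (E n) M, ∀ y ∈ e.target, h e y = ((2 * lam : ℝ) : ℂ) • lev (φ e) y) (x : M) :
    scal h x = -(2 / lam) * (lap φ (uu φ) x - n) := by
  set e := chartAt (E n) x with hedef
  have he : e ∈ atlas (E n) M := chart_mem_atlas _ _
  have hxe : x ∈ e.source := mem_chart_source _ _
  have hy := e.map_source hxe
  have hu : IsUnit (lev (φ e) (e x)).det := det_unit hφ he hy
  have hnear : (fun z => Real.log (h e z).det.re) =ᶠ[𝓝 (e x)]
      fun z => (n * Real.log (2 * lam) + uu φ (e.symm z)) - φ e z := by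
    filter_upwards [e.open_target.mem_nhds hy] with z hz
    rw [logdet_near hφ hlam hh he hz, uu_eq hφ he hz, Real.log_mul (by positivity)
      (detre_pos hφ he hz).ne', Real.log_pow]
    ring
  have hU : ContDiffAt ℝ ∞ (fun y => uu φ (e.symm y)) (e x) :=
    contDiffAt_of (contDiffOn_uu hφ he) e.open_target hy
  have hP : ContDiffAt ℝ ∞ (φ e) (e x) := contDiffAt_of (hφ.smooth e he) e.open_target hy
  have hc : ContDiffAt ℝ 2 (fun _ : E n => (n : ℝ) * Real.log (2 * lam)) (e x) :=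
    contDiffAt_const
  have hl0 : lev (fun _ : E n => (n : ℝ) * Real.log (2 * lam)) (e x) = 0 := by
    have := lev_re_hol (n := n) (g := fun _ => (((n : ℝ) * Real.log (2 * lam) : ℝ) : ℂ))
      (y := e x) analyticAt_const
    simpa only [Complex.ofReal_re] using this
  have h1 : lev (fun z => Real.log (h e z).det.re) (e x) =
      lev (fun y => uu φ (e.symm y)) (e x) - lev (φ e) (e x) := by
    rw [lev_congr hnear, lev_sub (hc.add (hU.of_le le2)) (hP.of_le le2),
      lev_add hc (hU.of_le le2), hl0, zero_add]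
  have h2 : ∑ j, ∑ k, (lev (φ e) (e x))⁻¹ k j * lev (φ e) (e x) j k = (n : ℂ) := by
    rw [Finset.sum_comm]
    have h3 : ∀ k, ∑ j, (lev (φ e) (e x))⁻¹ k j * lev (φ e) (e x) j k =
        ((lev (φ e) (e x))⁻¹ * lev (φ e) (e x)) k k := fun k => by rw [Matrix.mul_apply]
    simp only [h3, Matrix.nonsing_inv_mul _ hu, Matrix.one_apply_eq]
    simp
  have h4 : ∑ j, ∑ k, (h e (e x))⁻¹ k j * lev (fun z => Real.log (h e z).det.re) (e x) j k =
      (((2 * lam)⁻¹ : ℝ) : ℂ) * (∑ j, ∑ k, (lev (φ e) (e x))⁻¹ k j *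
        lev (fun y => uu φ (e.symm y)) (e x) j k - n) := by
    rw [h1, hh e he _ hy, inv_smul_lev hφ he hy hlam, ← h2, ← Finset.sum_sub_distrib,
      Finset.mul_sum]
    refine Finset.sum_congr rfl fun j _ => ?_
    rw [← Finset.sum_sub_distrib, Finset.mul_sum]
    refine Finset.sum_congr rfl fun k _ => ?_
    rw [Matrix.smul_apply, Matrix.sub_apply, smul_eq_mul]
    push_cast
    ring
  have h5 : scal h x = -4 * (∑ j, ∑ k, (h e (e x))⁻¹ k j *
      lev (fun z => Real.log (h e z).det.re) (e x) j k).re := rfl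
  have h6 : lap φ (uu φ) x = (∑ j, ∑ k, (lev (φ e) (e x))⁻¹ k j *
        lev (fun y => uu φ (e.symm y)) (e x) j k).re := rfl
  rw [h5, h4, Complex.re_ofReal_mul, Complex.sub_re, Complex.natCast_re, ← h6]
  field_simp
  ring

theorem grad2_eq {φ : Fam n M ℝ} (hφ : IsPos 1 φ) {lam : ℝ} (hlam : 0 < lam) {h : MFam n M}
    (hh : ∀ e ∈ atlas (E n) M, ∀ y ∈ e.target, h e y = ((2 * lam : ℝ) : ℂ) • lev (φ e) y)
    (Z : ℝ) (x : M) :
    grad2 h (ff φ Z) x = (ff φ Z x) ^ 2 / (2 * lam) * (GG φ x).re := by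
  set e := chartAt (E n) x with hedef
  have he : e ∈ atlas (E n) M := chart_mem_atlas _ _
  have hxe : x ∈ e.source := mem_chart_source _ _
  have hy := e.map_source hxe
  have hU : ContDiffAt ℝ ∞ (fun y => uu φ (e.symm y)) (e x) :=
    contDiffAt_of (contDiffOn_uu hφ he) e.open_target hy
  have hUd : DifferentiableAt ℝ (fun y => uu φ (e.symm y)) (e x) := hU.differentiableAt (by simp)
  have hg : ∀ t : ℝ, HasDerivAt (fun t : ℝ => Real.exp (-(Real.log Z + t) / 2))
      (-(1 / 2) * Real.exp (-(Real.log Z + t) / 2)) t := by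
    intro t
    have h1 : HasDerivAt (fun t : ℝ => -(Real.log Z + t) / 2) (-(1 / 2)) t := by
      have e1 : (fun t : ℝ => -(Real.log Z + t) / 2) =
          fun t => (-(1 / 2 : ℝ)) * t + (-(Real.log Z) / 2) := by
        funext t; ring
      rw [e1]
      have h2 : HasDerivAt (fun t : ℝ => (-(1 / 2 : ℝ)) * t) (-(1 / 2 : ℝ)) t := by
        simpa using (hasDerivAt_id' t).const_mul (-(1 / 2 : ℝ))
      exact h2.add_const _
    have := h1.exp
    rw [mul_comm] at this
    exact this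
  have hd : deriv (fun t : ℝ => Real.exp (-(Real.log Z + t) / 2)) (uu φ (e.symm (e x))) =
      -(1 / 2) * ff φ Z x := by
    rw [(hg _).deriv, e.left_inv hxe]
    rfl
  have hdz : ∀ j, dz j (fun z => ((ff φ Z (e.symm z) : ℝ) : ℂ)) (e x) =
      ((-(1 / 2) * ff φ Z x : ℝ) : ℂ) * dz j (fun z => ((uu φ (e.symm z) : ℝ) : ℂ)) (e x) := by
    intro j
    have := dz_real_comp (g := fun t : ℝ => Real.exp (-(Real.log Z + t) / 2))
      (ψ := fun y => uu φ (e.symm y)) (y := e x) (hg _).differentiableAt hUd j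
    rw [hd] at this
    exact this
  have hdb : ∀ j, db j (fun z => ((ff φ Z (e.symm z) : ℝ) : ℂ)) (e x) =
      ((-(1 / 2) * ff φ Z x : ℝ) : ℂ) * db j (fun z => ((uu φ (e.symm z) : ℝ) : ℂ)) (e x) := by
    intro j
    have := db_real_comp (g := fun t : ℝ => Real.exp (-(Real.log Z + t) / 2))
      (ψ := fun y => uu φ (e.symm y)) (y := e x) (hg _).differentiableAt hUd j
    rw [hd] at this
    exact this
  have h4 : ∑ j, ∑ k, (h e (e x))⁻¹ k j * dz j (fun z => ((ff φ Z (e.symm z) : ℝ) : ℂ)) (e x) *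
      db k (fun z => ((ff φ Z (e.symm z) : ℝ) : ℂ)) (e x) =
      (((2 * lam)⁻¹ * (-(1 / 2) * ff φ Z x) ^ 2 : ℝ) : ℂ) * GG φ x := by
    rw [hh e he _ hy, inv_smul_lev hφ he hy hlam, GG, Finset.mul_sum]
    refine Finset.sum_congr rfl fun j _ => ?_
    rw [Finset.mul_sum]
    refine Finset.sum_congr rfl fun k _ => ?_
    rw [Matrix.smul_apply, smul_eq_mul, hdz, hdb]
    push_cast
    ring
  have h5 : grad2 h (ff φ Z) x = 4 * (∑ j, ∑ k, (h e (e x))⁻¹ k j *
      dz j (fun z => ((ff φ Z (e.symm z) : ℝ) : ℂ)) (e x) *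
      db k (fun z => ((ff φ Z (e.symm z) : ℝ) : ℂ)) (e x)).re := rfl
  rw [h5, h4, Complex.re_ofReal_mul]
  field_simp
  ring

theorem lap_vv {φ : Fam n M ℝ} (hφ : IsPos 1 φ) (x : M) :
    lap φ (vv φ) x = Real.exp (-uu φ x) * ((GG φ x).re - lap φ (uu φ) x) := by
  set e := chartAt (E n) x with hedef
  have he : e ∈ atlas (E n) M := chart_mem_atlas _ _
  have hxe : x ∈ e.source := mem_chart_source _ _
  have hy := e.map_source hxe
  have hUd : ∀ z ∈ e.target, DifferentiableAt ℝ (fun y => uu φ (e.symm y)) z := fun z hz =>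
    diffAt_of (contDiffOn_uu hφ he) e.open_target hz
  have hUc : ContDiffOn ℝ ∞ (fun y => ((uu φ (e.symm y) : ℝ) : ℂ)) e.target :=
    Complex.ofRealCLM.contDiff.comp_contDiffOn (contDiffOn_uu hφ he)
  have hg : ∀ t : ℝ, HasDerivAt (fun t : ℝ => Real.exp (-t)) (-Real.exp (-t)) t := by
    intro t
    have := (hasDerivAt_neg t).exp
    simpa using this
  have hdb : ∀ z ∈ e.target, ∀ k, db k (fun z => ((vv φ (e.symm z) : ℝ) : ℂ)) z =
      -((vv φ (e.symm z) : ℝ) : ℂ) * db k (fun z => ((uu φ (e.symm z) : ℝ) : ℂ)) z := by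
    intro z hz k
    have := db_real_comp (g := fun t : ℝ => Real.exp (-t))
      (ψ := fun y => uu φ (e.symm y)) (y := z) (hg _).differentiableAt (hUd z hz) k
    rw [(hg _).deriv] at this
    rw [show (fun z => ((vv φ (e.symm z) : ℝ) : ℂ)) =
      fun z => ((Real.exp (-uu φ (e.symm z)) : ℝ) : ℂ) from rfl, this]
    rw [vv]
    push_cast
    ring
  have hdz : ∀ z ∈ e.target, ∀ k, dz k (fun z => ((vv φ (e.symm z) : ℝ) : ℂ)) z =
      -((vv φ (e.symm z) : ℝ) : ℂ) * dz k (fun z => ((uu φ (e.symm z) : ℝ) : ℂ)) z := by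
    intro z hz k
    have := dz_real_comp (g := fun t : ℝ => Real.exp (-t))
      (ψ := fun y => uu φ (e.symm y)) (y := z) (hg _).differentiableAt (hUd z hz) k
    rw [(hg _).deriv] at this
    rw [show (fun z => ((vv φ (e.symm z) : ℝ) : ℂ)) =
      fun z => ((Real.exp (-uu φ (e.symm z)) : ℝ) : ℂ) from rfl, this]
    rw [vv]
    push_cast
    ring
  have hVd : DifferentiableAt ℝ (fun z => ((vv φ (e.symm z) : ℝ) : ℂ)) (e x) := by
    have h1 := Real.contDiff_exp.comp_contDiffOn (contDiffOn_uu hφ he).neg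
    have h2 := Complex.ofRealCLM.contDiff.comp_contDiffOn h1
    exact diffAt_of h2 e.open_target hy
  have hlev : ∀ j k, lev (fun z => vv φ (e.symm z)) (e x) j k =
      ((vv φ x : ℝ) : ℂ) * (dz j (fun z => ((uu φ (e.symm z) : ℝ) : ℂ)) (e x) *
        db k (fun z => ((uu φ (e.symm z) : ℝ) : ℂ)) (e x) -
        lev (fun z => uu φ (e.symm z)) (e x) j k) := by
    intro j k
    have hnear : db k (fun z => ((vv φ (e.symm z) : ℝ) : ℂ)) =ᶠ[𝓝 (e x)]
        fun z => -((vv φ (e.symm z) : ℝ) : ℂ) *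
          db k (fun z => ((uu φ (e.symm z) : ℝ) : ℂ)) z := by
      filter_upwards [e.open_target.mem_nhds hy] with z hz
      exact hdb z hz k
    have hdbd : DifferentiableAt ℝ (db k (fun z => ((uu φ (e.symm z) : ℝ) : ℂ))) (e x) :=
      diffAt_of (contDiffOn_db e.open_target hUc k) e.open_target hy
    have hVn : DifferentiableAt ℝ (fun z => -((vv φ (e.symm z) : ℝ) : ℂ)) (e x) := hVd.neg
    show dz j (db k (fun z => ((vv φ (e.symm z) : ℝ) : ℂ))) (e x) = _
    rw [dz_congr hnear j, dz_mul hVn hdbd j, dz_neg, hdz _ hy j, e.left_inv hxe]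
    show _ = _ * (_ - dz j (db k (fun z => ((uu φ (e.symm z) : ℝ) : ℂ))) (e x))
    ring
  have h6 : lap φ (vv φ) x = (∑ j, ∑ k, (lev (φ e) (e x))⁻¹ k j *
        lev (fun y => vv φ (e.symm y)) (e x) j k).re := rfl
  have h7 : lap φ (uu φ) x = (∑ j, ∑ k, (lev (φ e) (e x))⁻¹ k j *
        lev (fun y => uu φ (e.symm y)) (e x) j k).re := rfl
  have h8 : ∑ j, ∑ k, (lev (φ e) (e x))⁻¹ k j * lev (fun y => vv φ (e.symm y)) (e x) j k =
      ((vv φ x : ℝ) : ℂ) * (GG φ x - ∑ j, ∑ k, (lev (φ e) (e x))⁻¹ k j *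
        lev (fun y => uu φ (e.symm y)) (e x) j k) := by
    rw [GG, ← Finset.sum_sub_distrib, Finset.mul_sum]
    refine Finset.sum_congr rfl fun j _ => ?_
    rw [← Finset.sum_sub_distrib, Finset.mul_sum]
    refine Finset.sum_congr rfl fun k _ => ?_
    rw [hlev]
    ring
  rw [h6, h8, Complex.re_ofReal_mul, Complex.sub_re, ← h7, vv]

theorem ff_sq (φ : Fam n M ℝ) {Z : ℝ} (hZ : 0 < Z) (x : M) :
    (ff φ Z x) ^ 2 = Z⁻¹ * Real.exp (-uu φ x) := by
  rw [ff, ← Real.exp_nat_mul]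
  have : ((2 : ℕ) : ℝ) * (-(Real.log Z + uu φ x) / 2) = -Real.log Z + -uu φ x := by
    push_cast; ring
  rw [this, Real.exp_add, Real.exp_neg (Real.log Z), Real.exp_log hZ]

theorem log_ff (φ : Fam n M ℝ) (Z : ℝ) (x : M) :
    Real.log (ff φ Z x) = -(Real.log Z + uu φ x) / 2 := by
  rw [ff, Real.log_exp]

theorem integrand_eq {φ : Fam n M ℝ} (hφ : IsPos 1 φ) {lam : ℝ} (hlam : 0 < lam) {h : MFam n M}
    (hh : ∀ e ∈ atlas (E n) M, ∀ y ∈ e.target, h e y = ((2 * lam : ℝ) : ℂ) • lev (φ e) y)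
    {Z : ℝ} (hZ : 0 < Z) (x : M) :
    (lam / 2) * (scal h x * ff φ Z x ^ 2 + 4 * grad2 h (ff φ Z) x) -
      2 * ff φ Z x ^ 2 * Real.log (ff φ Z x) =
    Z⁻¹ * lap φ (vv φ) x + (n + Real.log Z + uu φ x) * ff φ Z x ^ 2 := by
  rw [scal_eq hφ hlam hh, grad2_eq hφ hlam hh, log_ff, lap_vv hφ, ff_sq φ hZ]
  field_simp
  ring

section measure

theorem lev_const (c : ℝ) (y : E n) : lev (fun _ : E n => c) y = 0 := by
  have := lev_re_hol (n := n) (g := fun _ => (c : ℂ)) (y := y) analyticAt_const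
  simpa only [Complex.ofReal_re] using this

/-- adding a constant to a weight -/
theorem lev_addc {φ : Fam n M ℝ} (hφ : IsPos 1 φ) (a : ℝ) {e : Ch n M} (he : e ∈ atlas (E n) M)
    {y : E n} (hy : y ∈ e.target) : lev (fun z => φ e z + a) y = lev (φ e) y := by
  have hP : ContDiffAt ℝ ∞ (φ e) y := contDiffAt_of (hφ.smooth e he) e.open_target hy
  rw [lev_add (hP.of_le le2) contDiffAt_const, lev_const, add_zero]

theorem isPos_addc {φ : Fam n M ℝ} (hφ : IsPos 1 φ) (a : ℝ) :
    IsPos 1 (fun e y => φ e y + a : Fam n M ℝ) where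
  smooth := fun e he => (hφ.smooth e he).add contDiffOn_const
  trans := by
    intro e he e' he' x hx
    have := hφ.trans e he e' he' x hx
    rw [this]
    ring
  pos := by
    intro e he y hy
    rw [lev_addc hφ a he hy]
    exact hφ.pos e he y hy

theorem dl_addc {φ : Fam n M ℝ} (hφ : IsPos 1 φ) (a : ℝ) (x : M) :
    dl (fun e y => φ e y + a : Fam n M ℝ) x = Real.exp a * dl φ x := by
  rw [dl, dl, lev_addc hφ a (chart_mem_atlas _ _)
    ((chartAt (E n) x).map_source (mem_chart_source _ _)), Real.exp_add]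
  ring

theorem lap_addc {φ : Fam n M ℝ} (hφ : IsPos 1 φ) (a : ℝ) (v : M → ℝ) (x : M) :
    lap (fun e y => φ e y + a : Fam n M ℝ) v x = lap φ v x := by
  rw [lap, lap, lev_addc hφ a (chart_mem_atlas _ _)
    ((chartAt (E n) x).map_source (mem_chart_source _ _))]

/-- the volume form of `h` as a weight -/
def kap (h : MFam n M) : Fam n M ℝ := fun e y => -Real.log (h e y).det.re

theorem kap_weight {φ : Fam n M ℝ} (hφ : IsPos 1 φ) {lam : ℝ} (hlam : 0 < lam) {h : MFam n M}
    (hh : ∀ e ∈ atlas (E n) M, ∀ y ∈ e.target, h e y = ((2 * lam : ℝ) : ℂ) • lev (φ e) y) :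
    IsWeight 1 (kap h) where
  smooth := by
    intro e he
    have h1 : ContDiffOn ℝ ∞ (fun y => -Real.log ((2 * lam) ^ n * (lev (φ e) y).det.re))
        e.target := by
      apply ContDiffOn.neg
      apply ContDiffOn.log
      · exact contDiffOn_const.mul (contDiffOn_detre hφ he)
      · intro y hy
        have := detre_pos hφ he hy
        positivity
    refine h1.congr ?_
    intro y hy
    rw [kap, logdet_near hφ hlam hh he hy]
  trans := by
    intro e he e' he' x hx
    have h1 := det_lev_trans hφ.toIsWeight he he' hx.1 hx.2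
    have h2 := congrArg Complex.re h1
    rw [Complex.re_ofReal_mul] at h2
    have hJ : 0 < ‖jac e e' (e x)‖ := norm_pos_iff.2 (jac_ne_zero he he' hx.1 hx.2)
    have h3 := detre_pos hφ he' (e'.map_source hx.2)
    rw [kap, kap, logdet_near hφ hlam hh he (e.map_source hx.1),
      logdet_near hφ hlam hh he' (e'.map_source hx.2), h2,
      show (2 * lam) ^ n * (‖jac e e' (e x)‖ ^ 2 * (lev (φ e') (e' x)).det.re) =
        ((2 * lam) ^ n * (lev (φ e') (e' x)).det.re) * (‖jac e e' (e x)‖ ^ 2) by ring,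
      Real.log_mul (by positivity) (by positivity)]
    push_cast
    ring

variable [MeasurableSpace M] [BorelSpace M]

theorem kap_dens {φ : Fam n M ℝ} (hφ : IsPos 1 φ) {lam : ℝ} (hlam : 0 < lam) {h : MFam n M}
    (hh : ∀ e ∈ atlas (E n) M, ∀ y ∈ e.target, h e y = ((2 * lam : ℝ) : ℂ) • lev (φ e) y)
    {dv : Measure M} (hv : IsVol h dv) : IsDens dv (kap h) := by
  intro e he f hf
  rw [hv e he f hf]
  refine setLIntegral_congr_fun e.open_target.measurableSet ?_
  intro y hy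
  have h1 := detre_pos hφ he hy
  have h2 : 0 < (h e y).det.re := by
    rw [logdet_near hφ hlam hh he hy]; positivity
  simp only [kap, neg_neg]
  rw [Real.exp_log h2]

theorem continuous_ff {φ : Fam n M ℝ} (hφ : IsPos 1 φ) (Z : ℝ) : Continuous (ff φ Z) := by
  have := continuous_uu hφ
  unfold ff
  fun_prop

theorem continuous_vv {φ : Fam n M ℝ} (hφ : IsPos 1 φ) : Continuous (vv φ) := by
  have := continuous_uu hφ
  unfold vv
  fun_prop

/-- the measure `f² dv` has density `e^{-φ'}` -/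
theorem dens_mu {φ : Fam n M ℝ} (hφ : IsPos 1 φ) {lam : ℝ} (hlam : 0 < lam) {h : MFam n M}
    (hh : ∀ e ∈ atlas (E n) M, ∀ y ∈ e.target, h e y = ((2 * lam : ℝ) : ℂ) • lev (φ e) y)
    {dv : Measure M} (hv : IsVol h dv) {Z : ℝ} (hZ : 0 < Z) :
    IsDens (dv.withDensity fun x => ENNReal.ofReal (ff φ Z x ^ 2))
      (fun e y => φ e y + Real.log (Z / (2 * lam) ^ n) : Fam n M ℝ) := by
  intro e he g hg
  have hm : Measurable fun x => ENNReal.ofReal (ff φ Z x ^ 2) :=
    ENNReal.measurable_ofReal.comp ((continuous_ff hφ Z).pow 2).measurable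
  rw [setLIntegral_withDensity_eq_setLIntegral_mul _ hm hg e.open_source.measurableSet,
    hv e he _ (hm.mul hg)]
  refine setLIntegral_congr_fun e.open_target.measurableSet ?_
  intro y hy
  have h1 := detre_pos hφ he hy
  have hl : 0 < (2 * lam) ^ n := by positivity
  simp only [Pi.mul_apply]
  rw [mul_comm (ENNReal.ofReal (ff φ Z (e.symm y) ^ 2)), mul_assoc,
    ← ENNReal.ofReal_mul (by positivity)]
  congr 2
  rw [ff_sq φ hZ, uu_eq hφ he hy, logdet_near hφ hlam hh he hy, neg_add, neg_add, Real.exp_add,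
    Real.exp_add, Real.exp_neg (Real.log _), Real.exp_neg (Real.log _), Real.exp_log h1,
    Real.exp_log (by positivity)]
  field_simp

end measure

end H2aux

open H2aux

variable [CompactSpace M] [T2Space M] [Nonempty M] [MeasurableSpace M] [BorelSpace M]

theorem W_comp {φ : Fam n M ℝ} (hφ : IsPos 1 φ) {lam : ℝ} (hlam : 0 < lam) {h : MFam n M}
    (hh : ∀ e ∈ atlas (E n) M, ∀ y ∈ e.target, h e y = ((2 * lam : ℝ) : ℂ) • lev (φ e) y)
    {dv : Measure M} (hv : IsVol h dv) :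
    ∃ (φ' : Fam n M ℝ) (μ : Measure M) (f : M → ℝ), IsPos 1 φ' ∧ IsDens μ φ' ∧
      IsProbabilityMeasure μ ∧ Sm n (fun x => ((f x : ℝ) : ℂ)) ∧ (∀ x, 0 < f x) ∧
      ∫ x, f x ^ 2 ∂dv = 1 ∧
      W h dv f (lam / 2) = -n - n * Real.log Real.pi + ∫ x, Real.log (dl φ' x) ∂μ := by
  have hκ := kap_weight hφ hlam hh
  have hd := kap_dens hφ hlam hh hv
  haveI hfin : IsFiniteMeasure dv := isFiniteMeasure_of_isDens hκ hd
  haveI hop : dv.IsOpenPosMeasure := isOpenPosMeasure_of_isDens hκ hd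
  have hint : ∀ g : M → ℝ, Continuous g → Integrable g dv := fun g hg =>
    hg.integrable_of_hasCompactSupport (HasCompactSupport.of_compactSpace g)
  set Z : ℝ := ∫ x, vv φ x ∂dv with hZdef
  have hZ : 0 < Z := by
    have hnn : 0 ≤ vv φ := fun x => (Real.exp_pos _).le
    rw [hZdef, integral_pos_iff_support_of_nonneg hnn (hint _ (continuous_vv hφ))]
    have : Function.support (vv φ) = univ := by
      ext x
      simp only [Function.mem_support, mem_univ, iff_true]
      exact (Real.exp_pos _).ne'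
    rw [this]
    exact Measure.measure_univ_pos.2 (NeZero.ne dv)
  have hff2 : Continuous fun x => ff φ Z x ^ 2 := (continuous_ff hφ Z).pow 2
  have hone : ∫ x, ff φ Z x ^ 2 ∂dv = 1 := by
    simp only [ff_sq φ hZ]
    rw [integral_const_mul]
    show Z⁻¹ * (∫ x, vv φ x ∂dv) = 1
    rw [← hZdef, inv_mul_cancel₀ hZ.ne']
  have hm : Measurable fun x => ENNReal.ofReal (ff φ Z x ^ 2) :=
    ENNReal.measurable_ofReal.comp hff2.measurable
  set μ : Measure M := dv.withDensity fun x => ENNReal.ofReal (ff φ Z x ^ 2) with hμdef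
  set a : ℝ := Real.log (Z / (2 * lam) ^ n) with ha
  have hμint : ∀ g : M → ℝ, ∫ x, g x ∂μ = ∫ x, ff φ Z x ^ 2 * g x ∂dv := by
    intro g
    rw [hμdef, integral_withDensity_eq_integral_toReal_smul hm
      (Filter.Eventually.of_forall fun x => ENNReal.ofReal_lt_top)]
    refine integral_congr_ae (Filter.Eventually.of_forall fun x => ?_)
    simp only [smul_eq_mul]
    rw [ENNReal.toReal_ofReal (by positivity)]
  have hprob : IsProbabilityMeasure μ := by
    constructor
    rw [hμdef, withDensity_apply _ MeasurableSet.univ, Measure.restrict_univ,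
      ← ofReal_integral_eq_lintegral_ofReal (hint _ hff2)
        (Filter.Eventually.of_forall fun x => by positivity), hone, ENNReal.ofReal_one]
  have hdens := dens_mu hφ hlam hh hv hZ
  have hpos := isPos_addc hφ a
  refine ⟨fun e y => φ e y + a, μ, ff φ Z, hpos, hdens, hprob, ?_, fun x => Real.exp_pos _,
    hone, ?_⟩
  · exact sm_of_real (g := fun t => Real.exp (-(Real.log Z + t) / 2)) (by fun_prop) hφ
  have hvs : Sm n (fun x => ((vv φ x : ℝ) : ℂ)) :=
    sm_of_real (g := fun t => Real.exp (-t)) (by fun_prop) hφ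
  have hlap0 : ∫ x, lap φ (vv φ) x ∂dv = 0 := by
    have h1 := integral_lap hpos hdens hvs
    rw [hμint] at h1
    have h2 : ∀ x, ff φ Z x ^ 2 * (lap (fun e y => φ e y + a : Fam n M ℝ) (vv φ) x *
        dl (fun e y => φ e y + a : Fam n M ℝ) x) = (Z⁻¹ * Real.exp a) * lap φ (vv φ) x := by
      intro x
      rw [lap_addc hφ, dl_addc hφ, ff_sq φ hZ]
      have h3 : Real.exp (-uu φ x) * dl φ x = 1 := by
        rw [uu, Real.exp_neg, Real.exp_log (dl_pos hφ x), inv_mul_cancel₀ (dl_pos hφ x).ne']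
      linear_combination (Z⁻¹ * Real.exp a * lap φ (vv φ) x) * h3
    simp only [h2] at h1
    rw [integral_const_mul] at h1
    rcases mul_eq_zero.1 h1 with h4 | h4
    · exact absurd h4 (by positivity)
    · exact h4
  have hc1 : Continuous fun x => Z⁻¹ * lap φ (vv φ) x :=
    continuous_const.mul (continuous_lap hφ hvs)
  have hc2 : Continuous fun x => ff φ Z x ^ 2 * ((n : ℝ) + Real.log Z + uu φ x) :=
    hff2.mul (continuous_const.add (continuous_uu hφ))
  have hI : ∫ x, ((lam / 2) * (scal h x * ff φ Z x ^ 2 + 4 * grad2 h (ff φ Z) x) -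
      2 * ff φ Z x ^ 2 * Real.log (ff φ Z x)) ∂dv = (n : ℝ) + Real.log Z + ∫ x, uu φ x ∂μ := by
    have h1 : ∀ x, (lam / 2) * (scal h x * ff φ Z x ^ 2 + 4 * grad2 h (ff φ Z) x) -
      2 * ff φ Z x ^ 2 * Real.log (ff φ Z x) =
      Z⁻¹ * lap φ (vv φ) x + ff φ Z x ^ 2 * ((n : ℝ) + Real.log Z + uu φ x) := by
      intro x
      rw [integrand_eq hφ hlam hh hZ]
      ring
    simp only [h1]
    rw [integral_add (hint _ hc1) (hint _ hc2), integral_const_mul, hlap0, mul_zero, zero_add,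
      ← hμint fun x => (n : ℝ) + Real.log Z + uu φ x]
    haveI := hprob
    have hintμ : Integrable (uu φ) μ := (continuous_uu hφ).integrable_of_hasCompactSupport
      (HasCompactSupport.of_compactSpace _)
    rw [integral_add (integrable_const _) hintμ, integral_const]
    simp
  rw [W, hI]
  have hJ : ∫ x, Real.log (dl (fun e y => φ e y + a : Fam n M ℝ) x) ∂μ =
      a + ∫ x, uu φ x ∂μ := by
    haveI := hprob
    have hintμ : Integrable (uu φ) μ := (continuous_uu hφ).integrable_of_hasCompactSupport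
      (HasCompactSupport.of_compactSpace _)
    have h1 : ∀ x, Real.log (dl (fun e y => φ e y + a : Fam n M ℝ) x) = a + uu φ x := by
      intro x
      rw [dl_addc hφ, Real.log_mul (Real.exp_pos a).ne' (dl_pos hφ x).ne', Real.log_exp]
      rfl
    simp only [h1]
    rw [integral_add (integrable_const _) hintμ, integral_const]
    simp
  rw [hJ, ha, Real.log_div hZ.ne' (by positivity), Real.log_pow,
    show 4 * Real.pi * (lam / 2) = (2 * lam) * Real.pi by ring,
    Real.log_mul (by positivity) Real.pi_pos.ne']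
  ring

end Pool.Agent.helper63.NU
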